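import Pool.Agent.Helper882.Dirac.Killing

set_option autoImplicit false
open Set Filter Topology

namespace Pool.Agent.Helper882.Dirac

/-- The class of probability functionals whose image measure on the part without the symbol 2 is
carried by a countable set. -/
def QQ (φ : C(KK, ℝ) →L[ℝ] ℝ) : Prop :=
  Pos φ ∧ φ 1 = 1 ∧ ∃ D : Set (ℕ → XX), D.Countable ∧ ∀ c : Set (List XX),
    (∀ x ∈ D, ∃ i, ¬ good c x i) → ∀ ε : ℝ, 0 < ε → ∃ k, mu φ (InC c k) < ε

theorem killing (u : ℕ → C(KK, ℝ) →L[ℝ] ℝ) (φ : C(KK, ℝ) →L[ℝ] ℝ) (hu : ∀ n, Pos (u n))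
    (hφ : Pos φ) (hlim : ∀ f : C(KK, ℝ), Tendsto (fun n => u n f) atTop (𝓝 (φ f)))
    (c : Set (List XX)) (hc : ∀ n, ∀ ε : ℝ, 0 < ε → ∃ k, mu (u n) (InC c k) < ε)
    (ε : ℝ) (hε : 0 < ε) : ∃ k, mu φ (InC c k) < ε := by
  classical
  by_contra hcon
  push Not at hcon
  -- the limit value
  have hanti : ∀ ψ : C(KK, ℝ) →L[ℝ] ℝ, Pos ψ → ∀ k l, k ≤ l → mu ψ (InC c l) ≤ mu ψ (InC c k) :=
    fun ψ hψ k l h => mu_mono hψ (isClopen_InC _ _) (isClopen_InC _ _) (InC_anti c h)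
  have hnn : ∀ ψ : C(KK, ℝ) →L[ℝ] ℝ, Pos ψ → ∀ k, 0 ≤ mu ψ (InC c k) :=
    fun ψ hψ k => mu_nonneg hψ (isClopen_InC _ _)
  have hbdd : BddBelow (Set.range fun k => mu φ (InC c k)) := ⟨0, by rintro _ ⟨k, rfl⟩; exact hnn φ hφ k⟩
  obtain ⟨η, hη⟩ : ∃ η, η = ⨅ k, mu φ (InC c k) := ⟨_, rfl⟩
  have hηle : ∀ k, η ≤ mu φ (InC c k) := fun k => hη ▸ ciInf_le hbdd k
  have hηpos : 0 < η := by
    have : ε ≤ η := by rw [hη]; exact le_ciInf hcon
    linarith
  obtain ⟨δ, hδ⟩ : ∃ δ, δ = η / 16 := ⟨_, rfl⟩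
  have hδpos : 0 < δ := by rw [hδ]; linarith
  obtain ⟨l0, hl0⟩ : ∃ l0, mu φ (InC c l0) < η + δ := by
    have : (⨅ k, mu φ (InC c k)) < η + δ := by rw [← hη]; linarith
    exact exists_lt_of_ciInf_lt this
  have hconv : ∀ S : Set KK, Tendsto (fun n => mu (u n) S) atTop (𝓝 (mu φ S)) := fun S => hlim (chi S)
  have hstep : ∀ i l : ℕ, ∃ m l' : ℕ, i ≤ m ∧ l < l' ∧ |mu (u m) (InC c l0) - mu φ (InC c l0)| < δ ∧
      |mu (u m) (InC c l) - mu φ (InC c l)| < δ ∧ mu (u m) (InC c l') < δ := by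
    intro i l
    have h1 := Metric.tendsto_atTop.mp (hconv (InC c l0)) δ hδpos
    have h2 := Metric.tendsto_atTop.mp (hconv (InC c l)) δ hδpos
    obtain ⟨N1, hN1⟩ := h1
    obtain ⟨N2, hN2⟩ := h2
    let m := max i (max N1 N2)
    obtain ⟨k, hk⟩ := hc m δ hδpos
    refine ⟨m, max k (l + 1), le_max_left _ _, lt_of_lt_of_le (Nat.lt_succ_self l) (le_max_right _ _), ?_, ?_, ?_⟩
    · have := hN1 m (le_trans (le_max_left _ _) (le_max_right _ _))
      rwa [Real.dist_eq] at this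
    · have := hN2 m (le_trans (le_max_right _ _) (le_max_right _ _))
      rwa [Real.dist_eq] at this
    · exact lt_of_le_of_lt (hanti _ (hu m) _ _ (le_max_left _ _)) hk
  choose M Ln hMi hLn hM1 hM2 hM3 using hstep
  obtain ⟨ls, hls0, hlss⟩ : ∃ ls : ℕ → ℕ, ls 0 = l0 ∧ ∀ i, ls (i + 1) = Ln i (ls i) :=
    ⟨fun i => Nat.rec (motive := fun _ => ℕ) l0 (fun i l => Ln i l) i, rfl, fun i => rfl⟩
  have hmono : StrictMono ls := strictMono_nat_of_lt_succ fun i => by rw [hlss]; exact hLn i (ls i)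
  let ms : ℕ → ℕ := fun i => M i (ls i)
  have hexb : ∀ l : ℕ, ∃ b : ℕ, ∀ i, ls i ≤ l → l < ls (i + 1) → b = i := by
    intro l
    by_cases h : ∃ i, ls i ≤ l ∧ l < ls (i + 1)
    · obtain ⟨i0, h1, h2⟩ := h
      refine ⟨i0, fun i h3 h4 => ?_⟩
      rcases lt_trichotomy i0 i with h | h | h
      · have h5 : ls (i0 + 1) ≤ ls i := hmono.monotone h
        omega
      · exact h
      · have h5 : ls (i + 1) ≤ ls i0 := hmono.monotone h
        omega
    · exact ⟨0, fun i h3 h4 => absurd ⟨i, h3, h4⟩ h⟩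
  choose blk hblk' using hexb
  have hblk : ∀ i l, ls i ≤ l → l < ls (i + 1) → blk l = i := fun i l => hblk' l i
  -- labels
  have hlab : ∀ e : ℕ, ∃ j : Fin 4, mu (u (ms (blk (Nat.log 2 e)))) (WW c (Nat.log 2 e) e j) ≤
      mu (u (ms (blk (Nat.log 2 e)))) (InC c (Nat.log 2 e) \ InC c (Nat.log 2 e + 1)) / 4 :=
    fun e => exists_label (hu _) c _ e
  choose J hJ using hlab
  let γ : GG := (c, {l | Even (blk l)}, J)
  have hγJ : ∀ i l, ls i ≤ l → l < ls (i + 1) →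
      mu (u (ms i)) (WW γ.1 l (node (iota γ) l) (γ.2.2 (node (iota γ) l))) ≤
      mu (u (ms i)) (InC γ.1 l \ InC γ.1 (l + 1)) / 4 := by
    intro i l h1 h2
    have h3 := hJ (node (iota γ) l)
    rw [log_node, hblk i l h1 h2] at h3
    exact h3
  let f : C(KK, ℝ) := chi (ZZ γ ∩ InC c l0)
  have hfc : IsClopen (ZZ γ ∩ InC c l0) := (isClopen_ZZ γ).inter (isClopen_InC _ _)
  have hms : Tendsto ms atTop atTop := tendsto_atTop_mono (fun i => hMi i (ls i)) tendsto_id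
  have hflim : Tendsto (fun i => mu (u (ms i)) (ZZ γ ∩ InC c l0)) atTop (𝓝 (mu φ (ZZ γ ∩ InC c l0))) :=
    (hconv _).comp hms
  -- estimates
  have hl0le : ∀ i, l0 ≤ ls i := fun i => by rw [← hls0]; exact hmono.monotone (Nat.zero_le i)
  have hbase : ∀ i, |mu (u (ms i)) (InC c l0) - mu φ (InC c l0)| < δ ∧
      |mu (u (ms i)) (InC c (ls i)) - mu φ (InC c (ls i))| < δ ∧ mu (u (ms i)) (InC c (ls (i + 1))) < δ :=
    fun i => ⟨hM1 i (ls i), hM2 i (ls i), by rw [hlss]; exact hM3 i (ls i)⟩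
  have heven : ∀ i, Even i → 3 / 4 * (η - 2 * δ) ≤ mu (u (ms i)) (ZZ γ ∩ InC c l0) := by
    intro i hi
    have h1 := block_even (hu (ms i)) γ (ls i) (ls (i + 1)) (hmono.monotone (Nat.le_succ i))
      (fun l h1 h2 => by
        show Even (blk l)
        rw [hblk i l h1 h2]; exact hi) (hγJ i)
    have h2 : mu (u (ms i)) (ZZ γ ∩ (InC γ.1 (ls i) \ InC γ.1 (ls (i + 1)))) ≤
        mu (u (ms i)) (ZZ γ ∩ InC c l0) := by
      apply mu_mono (hu _) ((isClopen_ZZ γ).inter ((isClopen_InC _ _).diff (isClopen_InC _ _))) hfc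
      rintro p ⟨h3, h4, -⟩
      exact ⟨h3, InC_anti c (hl0le i) h4⟩
    obtain ⟨b1, b2, b3⟩ := hbase i
    have b2' := (abs_lt.mp b2).1
    have b4 := hηle (ls i)
    have h1' : 3 / 4 * (mu (u (ms i)) (InC c (ls i)) - mu (u (ms i)) (InC c (ls (i + 1)))) ≤
      mu (u (ms i)) (ZZ γ ∩ (InC γ.1 (ls i) \ InC γ.1 (ls (i + 1)))) := h1
    linarith
  have hodd : ∀ i, ¬ Even i → mu (u (ms i)) (ZZ γ ∩ InC c l0) ≤ η / 4 + 5 * δ := by
    intro i hi
    have h1 := block_odd (hu (ms i)) γ (ls i) (ls (i + 1)) (hmono.monotone (Nat.le_succ i))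
      (fun l h1 h2 => by
        show ¬ Even (blk l)
        rw [hblk i l h1 h2]; exact hi) (hγJ i)
    have h1' : mu (u (ms i)) (ZZ γ ∩ (InC c (ls i) \ InC c (ls (i + 1)))) ≤
      1 / 4 * (mu (u (ms i)) (InC c (ls i)) - mu (u (ms i)) (InC c (ls (i + 1)))) := h1
    have c1 : IsClopen (InC c l0 \ InC c (ls i)) := (isClopen_InC _ _).diff (isClopen_InC _ _)
    have c2 : IsClopen (ZZ γ ∩ (InC c (ls i) \ InC c (ls (i + 1)))) :=
      (isClopen_ZZ γ).inter ((isClopen_InC _ _).diff (isClopen_InC _ _))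
    have c3 : IsClopen (InC c (ls (i + 1))) := isClopen_InC _ _
    have d1 : Disjoint (InC c l0 \ InC c (ls i)) (ZZ γ ∩ (InC c (ls i) \ InC c (ls (i + 1)))) := by
      rw [Set.disjoint_left]
      rintro p ⟨-, h2⟩ ⟨-, h3, -⟩
      exact h2 h3
    have d2 : Disjoint ((InC c l0 \ InC c (ls i)) ∪ (ZZ γ ∩ (InC c (ls i) \ InC c (ls (i + 1)))))
        (InC c (ls (i + 1))) := by
      rw [Set.disjoint_left]
      rintro p (⟨-, h2⟩ | ⟨-, -, h2⟩) h3
      · exact h2 (InC_anti c (hmono.monotone (Nat.le_succ i)) h3)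
      · exact h2 h3
    have e1 := mu_union (u (ms i)) c1 c2 d1
    have e2 := mu_union (u (ms i)) (c1.union c2) c3 d2
    have e3 : mu (u (ms i)) (ZZ γ ∩ InC c l0) ≤
        mu (u (ms i)) (((InC c l0 \ InC c (ls i)) ∪ (ZZ γ ∩ (InC c (ls i) \ InC c (ls (i + 1))))) ∪
          InC c (ls (i + 1))) := by
      apply mu_mono (hu _) hfc ((c1.union c2).union c3)
      rintro p ⟨h2, h3⟩
      by_cases h4 : p ∈ InC c (ls (i + 1))
      · exact Or.inr h4
      · left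
        by_cases h5 : p ∈ InC c (ls i)
        · exact Or.inr ⟨h2, h5, h4⟩
        · exact Or.inl ⟨h3, h5⟩
    have e4 : mu (u (ms i)) (InC c l0 \ InC c (ls i)) =
        mu (u (ms i)) (InC c l0) - mu (u (ms i)) (InC c (ls i)) :=
      mu_diff _ (isClopen_InC _ _) (isClopen_InC _ _) (InC_anti c (hl0le i))
    obtain ⟨b1, b2, b3⟩ := hbase i
    have b1' := abs_lt.mp b1
    have b2' := abs_lt.mp b2
    have b4 := hηle (ls i)
    have b5 := hnn _ (hu (ms i)) (ls (i + 1))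
    have b6 : mu φ (InC c (ls i)) ≤ mu φ (InC c l0) := hanti φ hφ _ _ (hl0le i)
    linarith [b1'.1, b1'.2, b2'.1, b2'.2]
  have hL1 : 3 / 4 * (η - 2 * δ) ≤ mu φ (ZZ γ ∩ InC c l0) := by
    have h2 : Tendsto (fun i => 2 * i) atTop (atTop : Filter ℕ) :=
      tendsto_atTop_mono (fun i => by simp only [id]; omega) tendsto_id
    exact ge_of_tendsto' (hflim.comp h2) fun i => heven (2 * i) (even_two_mul i)
  have hL2 : mu φ (ZZ γ ∩ InC c l0) ≤ η / 4 + 5 * δ := by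
    have h2 : Tendsto (fun i => 2 * i + 1) atTop (atTop : Filter ℕ) :=
      tendsto_atTop_mono (fun i => by simp only [id]; omega) tendsto_id
    exact le_of_tendsto' (hflim.comp h2) fun i => hodd (2 * i + 1) (by simp)
  rw [hδ] at hL1 hL2
  linarith

theorem QQ_closed (u : ℕ → C(KK, ℝ) →L[ℝ] ℝ) (φ : C(KK, ℝ) →L[ℝ] ℝ) (hu : ∀ n, QQ (u n))
    (hlim : ∀ f : C(KK, ℝ), Tendsto (fun n => u n f) atTop (𝓝 (φ f))) : QQ φ := by
  have hpos : Pos φ := fun f hf => ge_of_tendsto' (hlim f) fun n => (hu n).1 f hf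
  refine ⟨hpos, ?_, ?_⟩
  · have h1 := hlim 1
    simp only [(hu _).2.1] at h1
    exact tendsto_nhds_unique h1 tendsto_const_nhds
  · choose D hD hD' using fun n => (hu n).2.2
    refine ⟨⋃ n, D n, Set.countable_iUnion hD, fun c hc ε hε => ?_⟩
    exact killing u φ (fun n => (hu n).1) hpos hlim c
      (fun n ε hε => hD' n c (fun x hx => hc x (Set.mem_iUnion.mpr ⟨n, hx⟩)) ε hε) ε hε

theorem QQ_dirac (p : KK) (φ : C(KK, ℝ) →L[ℝ] ℝ) (h : ∀ f : C(KK, ℝ), φ f = f p) : QQ φ := by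
  refine ⟨fun f hf => ?_, ?_, {p.1.1}, Set.countable_singleton _, fun c hc ε hε => ?_⟩
  · rw [h]; exact hf p
  · rw [h]; rfl
  · obtain ⟨i, hi⟩ := hc p.1.1 rfl
    refine ⟨i + 1, ?_⟩
    have hp : p ∉ InC c (i + 1) := fun hp => hi (hp i (Nat.lt_succ_self i))
    rw [mu, h, chi_apply (isClopen_InC _ _), Set.indicator_of_notMem hp]
    exact hε

theorem QQ_convex : Convex ℝ {φ : C(KK, ℝ) →L[ℝ] ℝ | QQ φ} := by
  rintro φ ⟨h1, h2, D, hD, hD'⟩ ψ ⟨h1', h2', E, hE, hE'⟩ a b ha hb hab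
  refine ⟨fun f hf => ?_, ?_, D ∪ E, hD.union hE, fun c hc ε hε => ?_⟩
  · have := h1 f hf
    have := h1' f hf
    change 0 ≤ a * φ f + b * ψ f
    positivity
  · change a * φ 1 + b * ψ 1 = 1
    rw [h2, h2', mul_one, mul_one, hab]
  · obtain ⟨k, hk⟩ := hD' c (fun x hx => hc x (Or.inl hx)) ε hε
    obtain ⟨l, hl⟩ := hE' c (fun x hx => hc x (Or.inr hx)) ε hε
    refine ⟨max k l, ?_⟩
    change a * mu φ (InC c (max k l)) + b * mu ψ (InC c (max k l)) < ε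
    have e1 : mu φ (InC c (max k l)) ≤ mu φ (InC c k) :=
      mu_mono h1 (isClopen_InC _ _) (isClopen_InC _ _) (InC_anti c (le_max_left _ _))
    have e2 : mu ψ (InC c (max k l)) ≤ mu ψ (InC c l) :=
      mu_mono h1' (isClopen_InC _ _) (isClopen_InC _ _) (InC_anti c (le_max_right _ _))
    have e3 : mu φ (InC c (max k l)) < ε := by linarith
    have e4 : mu ψ (InC c (max k l)) < ε := by linarith
    rcases eq_or_lt_of_le ha with h | h
    · have : b = 1 := by linarith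
      rw [← h, this]; linarith
    · have h5 : a * mu φ (InC c (max k l)) < a * ε := mul_lt_mul_of_pos_left e3 h
      have h6 : b * mu ψ (InC c (max k l)) ≤ b * ε := mul_le_mul_of_nonneg_left e4.le hb
      have h7 : a * ε + b * ε = ε := by rw [← add_mul, hab, one_mul]
      linarith

end Pool.Agent.Helper882.Dirac
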