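import Pool.Agent.Helper882.Dirac.Threshold

set_option autoImplicit false

namespace Pool.Agent.Helper882.Dirac

open MeasureTheory


namespace J5633

open ProbabilityTheory

/-- restriction of a point to a set of coordinates -/
def rs {Γ : Type} (S : Set Γ) (z : Γ → Bool) : S → Bool := fun i => z i

lemma measurable_rs {Γ : Type} (S : Set Γ) : Measurable (rs S) := by
  unfold rs
  fun_prop

lemma bool_ext (μ ν : Measure Bool) [IsProbabilityMeasure μ] [IsProbabilityMeasure ν]
    (h : μ {true} = ν {true}) : μ = ν := by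
  refine Measure.ext_of_singleton ?_
  intro b
  cases b with
  | true => exact h
  | false =>
    have e : ({false} : Set Bool) = ({true} : Set Bool)ᶜ := by ext b; cases b <;> simp
    rw [e, prob_compl_eq_one_sub (measurableSet_singleton _),
      prob_compl_eq_one_sub (measurableSet_singleton _), h]

/-- two maps into a subsingleton -/
lemma subsingleton_measure_ext {α : Type} [MeasurableSpace α] [Subsingleton α] (μ ν : Measure α)
    [IsProbabilityMeasure μ] [IsProbabilityMeasure ν] : μ = ν := by
  ext s hs
  rcases Set.eq_empty_or_nonempty s with h | ⟨x, hx⟩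
  · simp [h]
  · have : s = Set.univ := by
      ext y
      simp only [Set.mem_univ, iff_true]
      rwa [Subsingleton.elim y x]
    simp [this]

lemma step_meas {Ω ι : Type} [MeasurableSpace Ω] (χ : ℝ × (ℕ → Bool) → Bool) (hχ : Measurable χ)
    (p : (ι → Bool) → ℝ) (hp : Measurable p) (A : ι → Ω → Bool) (B : ℕ → Ω → Bool)
    (hA : ∀ b, Measurable (A b)) (hB : ∀ n, Measurable (B n)) :
    Measurable (fun w => χ (p (fun b => A b w), fun n => B n w)) :=
  hχ.comp ((hp.comp (measurable_pi_lambda _ hA)).prodMk (measurable_pi_lambda _ hB))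

end J5633

open J5633 ProbabilityTheory in
/-- Every probability measure on `Γ → Bool` is the law of a measurable function of fair coins
indexed by `Γ × ℕ`. -/
theorem exists_coupling
    (hT : ∃ T : Set (ℝ × (ℕ → Bool)), MeasurableSet T ∧
      ∀ p : ℝ, 0 ≤ p → p ≤ 1 →
        (Measure.infinitePi (fun _ : ℕ => coin)) {ω | (p, ω) ∈ T} = ENNReal.ofReal p)
    (Γ : Type) (ν : Measure (Γ → Bool)) [IsProbabilityMeasure ν] :
    ∃ Ψ : (Γ × ℕ → Bool) → (Γ → Bool), Measurable Ψ ∧
      (Measure.infinitePi (fun _ : Γ × ℕ => coin)).map Ψ = ν := by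
  classical
  obtain ⟨T, hTm, hTp⟩ := hT
  obtain ⟨_inst, wf⟩ := exists_wellFoundedLT Γ
  set P : Measure (Γ × ℕ → Bool) := Measure.infinitePi (fun _ : Γ × ℕ => coin) with hP
  set Q : Measure (ℕ → Bool) := Measure.infinitePi (fun _ : ℕ => coin) with hQ
  let χ : ℝ × (ℕ → Bool) → Bool := fun x => decide (x ∈ T)
  have hχ : Measurable χ := measurable_to_bool (by
    have : χ ⁻¹' {true} = T := by ext x; simp [χ]
    rw [this]; exact hTm)
  let κ : (g : Γ) → Kernel (Set.Iio g → Bool) Bool :=
    fun g => condDistrib (fun z : Γ → Bool => z g) (rs (Set.Iio g)) ν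
  have hκ : ∀ g, IsMarkovKernel (κ g) := fun g => by
    dsimp only [κ]; infer_instance
  let p : (g : Γ) → (Set.Iio g → Bool) → ℝ := fun g u => (κ g u {true}).toReal
  have hp : ∀ g, Measurable (p g) :=
    fun g => ((κ g).measurable_coe (measurableSet_singleton _)).ennreal_toReal
  let F : (w : Γ × ℕ → Bool) → (g : Γ) → ((b : Γ) → b < g → Bool) → Bool :=
    fun w g rec => χ (p g (fun b => rec b b.2), fun n => w (g, n))
  let Ψ : (Γ × ℕ → Bool) → Γ → Bool := fun w => wf.wf.fix (F w)
  have hΨ : ∀ w g, Ψ w g = χ (p g (fun b : Set.Iio g => Ψ w b), fun n => w (g, n)) := fun w g => by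
    show wf.wf.fix (F w) g = _
    rw [WellFounded.fix_eq]
  clear_value Ψ
  let m : Γ × ℕ → MeasurableSpace (Γ × ℕ → Bool) :=
    fun i => MeasurableSpace.comap (fun w => w i) inferInstance
  have hm_le : ∀ i, m i ≤ MeasurableSpace.pi := fun i => (measurable_pi_apply i).comap_le
  have hcoord : ∀ (S : Set (Γ × ℕ)) (i) (_ : i ∈ S),
      @Measurable _ _ (⨆ j ∈ S, m j) _ (fun w : Γ × ℕ → Bool => w i) := by
    intro S i hi
    exact Measurable.mono (comap_measurable _) (le_iSup₂_of_le i hi le_rfl) le_rfl
  have hmeas : ∀ g, @Measurable _ _ (⨆ j ∈ {j : Γ × ℕ | j.1 ≤ g}, m j) _ (fun w => Ψ w g) := by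
    intro g
    induction g using wf.induction with
    | ind g ih =>
      have e : (fun w => Ψ w g) =
          fun w => χ (p g (fun b : Set.Iio g => Ψ w b), fun n => w (g, n)) :=
        funext fun w => hΨ w g
      rw [e]
      refine @step_meas _ _ (⨆ j ∈ {j : Γ × ℕ | j.1 ≤ g}, m j) χ hχ (p g) (hp g)
        (fun b w => Ψ w b) (fun n w => w (g, n)) ?_ ?_
      · intro b
        refine Measurable.mono (ih b b.2) ?_ le_rfl
        exact biSup_mono (fun j hj => le_trans hj (le_of_lt b.2))
      · intro n
        exact hcoord _ _ (by simp)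
  have hΨm : Measurable Ψ := measurable_pi_lambda _ fun g =>
    (hmeas g).mono (iSup₂_le fun i _ => hm_le i) le_rfl
  have hiI : iIndep m P :=
    (iIndepFun_infinitePi (P := fun _ : Γ × ℕ => coin) (X := fun _ b => b)
      (fun _ => measurable_id)).iIndep
  have hYm : ∀ g : Γ, Measurable (fun (w : Γ × ℕ → Bool) (n : ℕ) => w (g, n)) := by
    intro g; fun_prop
  have hind : ∀ g, IndepFun (fun w => rs (Set.Iio g) (Ψ w))
      (fun (w : Γ × ℕ → Bool) (n : ℕ) => w (g, n)) P := by
    intro g
    have h := indep_iSup_of_disjoint hm_le hiI (S := {j | j.1 < g}) (T := {j | j.1 = g})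
      (by
        rw [Set.disjoint_left]
        intro j h1 h2
        exact absurd h2 (ne_of_lt h1))
    rw [IndepFun_iff_Indep]
    refine indep_of_indep_of_le_left (indep_of_indep_of_le_right h ?_) ?_
    · refine Measurable.comap_le ?_
      exact @measurable_pi_lambda _ _ _ (⨆ j ∈ {j : Γ × ℕ | j.1 = g}, m j) _ _
        (fun n => hcoord _ _ (by simp))
    · refine Measurable.comap_le ?_
      refine @measurable_pi_lambda _ _ _ (⨆ j ∈ {j : Γ × ℕ | j.1 < g}, m j) _ _ (fun b => ?_)
      refine Measurable.mono (hmeas b) ?_ le_rfl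
      exact biSup_mono (fun j hj => lt_of_le_of_lt hj b.2)
  have pair : ∀ g, P.map (fun w => rs (Set.Iio g) (Ψ w)) = ν.map (rs (Set.Iio g)) →
      P.map (fun w => (rs (Set.Iio g) (Ψ w), Ψ w g)) =
        ν.map (fun z => (rs (Set.Iio g) z, z g)) := by
    intro g h
    have hrm : Measurable (fun w => rs (Set.Iio g) (Ψ w)) := (measurable_rs _).comp hΨm
    have h1 : P.map (fun w => (rs (Set.Iio g) (Ψ w), fun n => w (g, n))) =
        (ν.map (rs (Set.Iio g))).prod Q := by
      rw [(hind g).map_prod_eq_prod_map_map hrm.aemeasurable (hYm g).aemeasurable, h]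
      congr 1
      exact Measure.map_infinitePi_infinitePi_of_inj (P := fun _ : Γ × ℕ => coin)
        (f := fun n => (g, n)) (fun a b hab => by simpa using hab)
    let φ : (Set.Iio g → Bool) × (ℕ → Bool) → (Set.Iio g → Bool) × Bool :=
      fun x => (x.1, χ (p g x.1, x.2))
    have hφ : Measurable φ := by
      have := hp g
      fun_prop
    have h2 : (fun w => (rs (Set.Iio g) (Ψ w), Ψ w g)) =
        φ ∘ (fun w => (rs (Set.Iio g) (Ψ w), fun n => w (g, n))) := by
      funext w
      simp only [φ, Function.comp]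
      rw [hΨ w g]
      rfl
    have hcd : (ν.map (rs (Set.Iio g))) ⊗ₘ (κ g) = ν.map (fun z => (rs (Set.Iio g) z, z g)) :=
      compProd_map_condDistrib (measurable_pi_apply g).aemeasurable
    rw [h2, ← Measure.map_map hφ (hrm.prodMk (hYm g)), h1, ← hcd]
    have hprob : IsProbabilityMeasure (ν.map (rs (Set.Iio g))) :=
      Measure.isProbabilityMeasure_map (measurable_rs _).aemeasurable
    ext s hs
    rw [Measure.map_apply hφ hs, Measure.prod_apply (hφ hs), Measure.compProd_apply hs]
    refine lintegral_congr fun u => ?_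
    have hcu : Measurable (fun y => χ (p g u, y)) := hχ.comp (measurable_const.prodMk measurable_id)
    have hQu : IsProbabilityMeasure (Q.map (fun y => χ (p g u, y))) :=
      Measure.isProbabilityMeasure_map hcu.aemeasurable
    have hu : Q.map (fun y => χ (p g u, y)) = κ g u := by
      refine bool_ext _ _ ?_
      rw [Measure.map_apply hcu (measurableSet_singleton _)]
      have e : (fun y => χ (p g u, y)) ⁻¹' {true} = {ω | (p g u, ω) ∈ T} := by
        ext y; simp [χ]
      rw [e, hTp (p g u) ENNReal.toReal_nonneg]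
      · exact ENNReal.ofReal_toReal (measure_ne_top _ _)
      · have : κ g u {true} ≤ 1 := prob_le_one
        exact ENNReal.toReal_le_of_le_ofReal zero_le_one (by simpa using this)
    rw [← hu, Measure.map_apply hcu (measurable_prodMk_left hs)]
    rfl
  have hrsm : ∀ S : Set Γ, Measurable (fun w => rs S (Ψ w)) := fun S => (measurable_rs S).comp hΨm
  let EQ : Set Γ → Prop := fun S => P.map (fun w => rs S (Ψ w)) = ν.map (rs S)
  have EQmono : ∀ S S', S' ⊆ S → EQ S → EQ S' := by
    intro S S' hss h
    let r : (S → Bool) → (S' → Bool) := fun x i => x ⟨i, hss i.2⟩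
    have hr : Measurable r := by fun_prop
    show P.map (r ∘ fun w => rs S (Ψ w)) = ν.map (r ∘ rs S)
    rw [← Measure.map_map hr (hrsm S), ← Measure.map_map hr (measurable_rs _), h]
  have EQfin : ∀ S, (∀ G : Finset Γ, ↑G ⊆ S → EQ ↑G) → EQ S := by
    intro S h
    refine IsProjectiveLimit.unique (P := fun I => (ν.map (rs S)).map I.restrict) ?_ (fun I => rfl)
    intro I
    have hG : EQ (↑(I.map (Function.Embedding.subtype _))) :=
      h (I.map (Function.Embedding.subtype _)) (by
        intro x hx
        simp only [Finset.coe_map, Set.mem_image] at hx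
        obtain ⟨y, _, rfl⟩ := hx
        exact y.2)
    let r : (↑(↑(I.map (Function.Embedding.subtype _)) : Set Γ) → Bool) → (I → Bool) :=
      fun x i => x ⟨i, by simp⟩
    have hr : Measurable r := by fun_prop
    have hIr : Measurable (I.restrict : (S → Bool) → (I → Bool)) := by fun_prop
    show (P.map (fun w => rs S (Ψ w))).map I.restrict = (ν.map (rs S)).map I.restrict
    rw [Measure.map_map hIr (hrsm S), Measure.map_map hIr (measurable_rs _)]
    show P.map (r ∘ fun w => rs _ (Ψ w)) = ν.map (r ∘ rs _)
    rw [← Measure.map_map hr (hrsm _), ← Measure.map_map hr (measurable_rs _)]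
    exact congrArg _ hG
  have EQempty : EQ ∅ := by
    have : IsProbabilityMeasure (P.map (fun w => rs ∅ (Ψ w))) :=
      Measure.isProbabilityMeasure_map ((measurable_rs _).comp hΨm).aemeasurable
    have : IsProbabilityMeasure (ν.map (rs ∅)) :=
      Measure.isProbabilityMeasure_map (measurable_rs _).aemeasurable
    exact subsingleton_measure_ext _ _
  have EQof : ∀ S : Set Γ, (∀ b ∈ S, EQ (Set.Iic b)) → EQ S := by
    intro S h
    refine EQfin S ?_
    intro G hG
    rcases G.eq_empty_or_nonempty with h0 | h0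
    · rw [h0, Finset.coe_empty]; exact EQempty
    · refine EQmono (Set.Iic (G.max' h0)) _ ?_ (h _ (hG (G.max'_mem h0)))
      intro x hx
      exact G.le_max' x hx
  have EQall : ∀ g, EQ (Set.Iic g) := by
    intro g
    induction g using wf.induction with
    | ind g ih =>
      have h1 : EQ (Set.Iio g) := EQof _ (fun b hb => ih b hb)
      have h2 := pair g h1
      let e : (Set.Iio g → Bool) × Bool → (Set.Iic g → Bool) :=
        fun x i => if h : (i : Γ) < g then x.1 ⟨i, h⟩ else x.2
      have he : Measurable e := by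
        refine measurable_pi_lambda _ fun i => ?_
        by_cases h : (i : Γ) < g
        · simp only [e, h, dif_pos]
          fun_prop
        · simp only [e, h, dif_neg, not_false_eq_true]
          fun_prop
      have hez : ∀ z : Γ → Bool, rs (Set.Iic g) z = e (rs (Set.Iio g) z, z g) := by
        intro z
        funext i
        by_cases h : (i : Γ) < g
        · simp [e, h, rs]
        · have : (i : Γ) = g := le_antisymm i.2 (not_lt.mp h)
          simp [e, rs, this]
      have e1 : (fun w => rs (Set.Iic g) (Ψ w)) = e ∘ (fun w => (rs (Set.Iio g) (Ψ w), Ψ w g)) :=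
        funext fun w => hez (Ψ w)
      have e2 : (rs (Set.Iic g)) = e ∘ (fun z => (rs (Set.Iio g) z, z g)) :=
        funext fun w => hez w
      show P.map (fun w => rs (Set.Iic g) (Ψ w)) = ν.map (rs (Set.Iic g))
      rw [e1, e2, ← Measure.map_map he, ← Measure.map_map he, h2]
      · exact (measurable_rs _).prodMk (measurable_pi_apply g)
      · exact ((measurable_rs _).comp hΨm).prodMk ((measurable_pi_apply g).comp hΨm)
  refine ⟨Ψ, hΨm, ?_⟩
  refine IsProjectiveLimit.unique (P := fun I => ν.map I.restrict) ?_ (fun I => rfl)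
  intro I
  have hI : EQ ↑I := EQof _ (fun b _ => EQall b)
  rw [Measure.map_map (by fun_prop) hΨm]
  exact hI

end Pool.Agent.Helper882.Dirac
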