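import Mathlib

set_option autoImplicit false

namespace Pool.Agent.Helper882.Dirac

open MeasureTheory

/-- A continuous real function on a Cantor cube is measurable for the product sigma-algebra. -/
theorem continuous_measurable_pi (Γ : Type) (f : C(Γ → Bool, ℝ)) : Measurable f := by
  classical
  let A : Subalgebra ℝ C(Γ → Bool, ℝ) :=
    { carrier := {g | Measurable (g : (Γ → Bool) → ℝ)}
      mul_mem' := fun {a b} ha hb => by
        have : Measurable (fun z => a z * b z) := Measurable.mul ha hb
        exact this
      add_mem' := fun {a b} ha hb => by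
        have : Measurable (fun z => a z + b z) := Measurable.add ha hb
        exact this
      algebraMap_mem' := fun r => by
        have : Measurable (fun _ : Γ → Bool => r) := measurable_const
        exact this }
  have hsep : A.SeparatesPoints := by
    intro x y hxy
    obtain ⟨g, hg⟩ := Function.ne_iff.mp hxy
    have hc : Continuous (fun z : Γ → Bool => (if z g = true then (1 : ℝ) else 0)) := by
      have h1 : Continuous (fun b : Bool => (if b = true then (1 : ℝ) else 0)) :=
        continuous_of_discreteTopology
      exact h1.comp (continuous_apply g)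
    have hm : Measurable (fun z : Γ → Bool => (if z g = true then (1 : ℝ) else 0)) := by
      have h1 : Measurable (fun b : Bool => (if b = true then (1 : ℝ) else 0)) :=
        measurable_of_finite _
      exact h1.comp (measurable_pi_apply g)
    refine ⟨fun z => (if z g = true then (1 : ℝ) else 0), ⟨⟨_, hc⟩, hm, rfl⟩, ?_⟩
    show (if x g = true then (1 : ℝ) else 0) ≠ (if y g = true then (1 : ℝ) else 0)
    revert hg
    generalize x g = a
    generalize y g = b
    cases a <;> cases b <;> simp
  have htop := ContinuousMap.subalgebra_topologicalClosure_eq_top_of_separatesPoints A hsep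
  have hf : f ∈ A.topologicalClosure := by rw [htop]; trivial
  have hf' : f ∈ closure (A : Set C(Γ → Bool, ℝ)) := hf
  rw [mem_closure_iff_seq_limit] at hf'
  obtain ⟨u, hu, hlim⟩ := hf'
  refine measurable_of_tendsto_metrizable (f := fun n z => u n z) (fun n => hu n) ?_
  rw [tendsto_pi_nhds]
  intro z
  exact ((ContinuousEvalConst.continuous_eval_const z).tendsto f).comp hlim

theorem riesz_pos_aux (X : Type) [TopologicalSpace X] [CompactSpace X] [T2Space X]
    [MeasurableSpace X] [BorelSpace X] (ψ : C(X, ℝ) →L[ℝ] ℝ)
    (hψ : ∀ f : C(X, ℝ), 0 ≤ f → 0 ≤ ψ f) :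
    ∃ ν : Measure X, IsFiniteMeasure ν ∧ ∀ f : C(X, ℝ), ψ f = ∫ z, f z ∂ν := by
  let Λ : CompactlySupportedContinuousMap X ℝ →ₚ[ℝ] ℝ :=
  { toFun g := ψ g.toContinuousMap
    map_add' g g' := by
      have : (g + g').toContinuousMap = g.toContinuousMap + g'.toContinuousMap := by
        ext x; rfl
      rw [this, map_add]
    map_smul' c g := by
      have : (c • g).toContinuousMap = c • g.toContinuousMap := by
        ext x; rfl
      rw [this, map_smul]; rfl
    monotone' g g' hgg' := by
      have h1 : 0 ≤ ψ (g'.toContinuousMap - g.toContinuousMap) := by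
        apply hψ
        intro x
        have := hgg' x
        simpa using this
      rw [map_sub] at h1
      exact sub_nonneg.mp h1 }
  refine ⟨RealRMK.rieszMeasure Λ, inferInstance, fun g => ?_⟩
  let g' : CompactlySupportedContinuousMap X ℝ :=
  { toFun := g
    hasCompactSupport' := HasCompactSupport.of_compactSpace _ }
  exact (RealRMK.integral_rieszMeasure Λ g').symm

/-- A positive functional on C(2^Γ) is given by a finite measure on the product sigma-algebra. -/
theorem exists_measure_of_pos (Γ : Type) (ψ : C(Γ → Bool, ℝ) →L[ℝ] ℝ)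
    (hψ : ∀ f : C(Γ → Bool, ℝ), 0 ≤ f → 0 ≤ ψ f) :
    ∃ ν : Measure (Γ → Bool), IsFiniteMeasure ν ∧ ∀ f : C(Γ → Bool, ℝ), ψ f = ∫ z, f z ∂ν := by
  obtain ⟨ν, hν, h⟩ := @riesz_pos_aux (Γ → Bool) _ _ _ (borel _) (@BorelSpace.mk _ _ (borel _) rfl) ψ hψ
  have hle : (MeasurableSpace.pi : MeasurableSpace (Γ → Bool)) ≤ borel (Γ → Bool) := by
    refine iSup_le fun g => ?_
    rw [MeasurableSpace.comap_le_iff_le_map]
    intro s _
    have : IsOpen ((fun z : Γ → Bool => z g) ⁻¹' s) :=
      (isOpen_discrete s).preimage (continuous_apply g)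
    exact MeasurableSpace.measurableSet_generateFrom this
  refine ⟨ν.trim hle, isFiniteMeasure_trim hle, fun f => ?_⟩
  rw [h f]
  exact integral_trim hle (continuous_measurable_pi Γ f).stronglyMeasurable

end Pool.Agent.Helper882.Dirac
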