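import Pool.Agent.Helper882.Dirac.Threshold

set_option autoImplicit false

namespace Pool.Agent.Helper882.Dirac

open MeasureTheory


/-- law of finitely many coordinates -/
theorem map_comp_coin {Y J : Type} [Fintype J] (c : J → Y) (hc : Function.Injective c) :
    (Measure.infinitePi (fun _ : Y => coin)).map (fun (h : Y → Bool) (x : J) => h (c x)) =
      Measure.pi (fun _ : J => coin) := by
  classical
  symm
  apply Measure.pi_eq
  intro s hs
  have hmeas : Measurable (fun (h : Y → Bool) (x : J) => h (c x)) :=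
    measurable_pi_lambda _ fun x => measurable_pi_apply _
  rw [Measure.map_apply hmeas (MeasurableSet.univ_pi hs)]
  have h1 : (fun (h : Y → Bool) (x : J) => h (c x)) ⁻¹' (Set.univ.pi s) =
      Set.pi (↑(Finset.univ.image c)) (Function.extend c s (fun _ => Set.univ)) := by
    ext h
    simp only [Set.mem_preimage, Set.mem_pi, Set.mem_univ, forall_true_left, Finset.coe_image,
      Finset.coe_univ, Set.image_univ, Set.mem_range]
    constructor
    · rintro hh y ⟨x, rfl⟩
      rw [hc.extend_apply]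
      exact hh x
    · intro hh x
      have := hh (c x) ⟨x, rfl⟩
      rwa [hc.extend_apply] at this
  rw [h1, Measure.infinitePi_pi, Finset.prod_image (fun x _ y _ h => hc h)]
  · refine Finset.prod_congr rfl fun x _ => ?_
    rw [hc.extend_apply]
  · intro y hy
    rw [Finset.mem_image] at hy
    obtain ⟨x, _, rfl⟩ := hy
    rw [hc.extend_apply]
    exact hs x

theorem integral_comp_coin {Y J : Type} [Fintype J] (c : J → Y) (hc : Function.Injective c)
    (F : (J → Bool) → ℝ) :
    ∫ h : Y → Bool, F (fun x => h (c x)) ∂(Measure.infinitePi (fun _ : Y => coin)) =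
      ∫ a, F a ∂(Measure.pi (fun _ : J => coin)) := by
  have hmeas : Measurable (fun (h : Y → Bool) (x : J) => h (c x)) :=
    measurable_pi_lambda _ fun x => measurable_pi_apply _
  rw [← map_comp_coin c hc, integral_map hmeas.aemeasurable]
  exact (measurable_of_finite F).aestronglyMeasurable

/-- a continuous function depends on finitely many coordinates up to `ε` -/
theorem unif_approx {Γ : Type} (f : C(Γ → Bool, ℝ)) (ε : ℝ) (hε : 0 < ε) :
    ∃ G : Finset Γ, ∀ x y : Γ → Bool, (∀ g ∈ G, x g = y g) → |f x - f y| < ε := by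
  classical
  have h1 : ∀ x : Γ → Bool, ∃ I : Finset Γ, ∀ y : Γ → Bool, (∀ g ∈ I, y g = x g) → |f y - f x| < ε / 2 := by
    intro x
    have hopen : IsOpen {y : Γ → Bool | |f y - f x| < ε / 2} :=
      isOpen_lt ((f.continuous.sub continuous_const).abs) continuous_const
    rw [isOpen_pi_iff] at hopen
    obtain ⟨I, u, hu, hsub⟩ := hopen x (by simp [hε])
    refine ⟨I, fun y hy => ?_⟩
    apply hsub
    intro g hg
    rw [hy g hg]
    exact (hu g hg).2
  choose I hI using h1
  have h2 : ∀ x ∈ (Set.univ : Set (Γ → Bool)), (I x : Set Γ).pi (fun g => {x g}) ∈ nhds x := by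
    intro x _
    apply IsOpen.mem_nhds
    · exact isOpen_set_pi (I x).finite_toSet fun g _ => isOpen_discrete _
    · intro g _
      rfl
  obtain ⟨t, _, ht⟩ := isCompact_univ.elim_nhds_subcover _ h2
  refine ⟨t.biUnion I, fun x y hxy => ?_⟩
  have hx := ht (Set.mem_univ x)
  rw [Set.mem_iUnion₂] at hx
  obtain ⟨z, hz, hxz⟩ := hx
  have hx1 := hI z x (fun g hg => hxz g hg)
  have hy1 := hI z y (fun g hg => by
    rw [← hxy g (Finset.mem_biUnion.mpr ⟨z, hz, hg⟩)]
    exact hxz g hg)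
  have h3 : f x - f y = (f x - f z) - (f y - f z) := by ring
  rw [h3]
  refine (abs_sub _ _).trans_lt ?_
  linarith

theorem exists_approx (Γ Ξ : Type) (Ψ : (Ξ → Bool) → (Γ → Bool)) (hΨ : Measurable Ψ) :
    ∃ (J : Γ → ℕ → Finset Ξ) (Φ : ℕ → (Ξ → Bool) → (Γ → Bool)),
      (∀ i, Measurable (Φ i)) ∧
      (∀ g i ω ω', (∀ x ∈ J g i, ω x = ω' x) → Φ i ω g = Φ i ω' g) ∧
      (∀ g i, (Measure.infinitePi (fun _ : Ξ => coin)) {ω | Φ i ω g ≠ Ψ ω g} ≤ ENNReal.ofReal ((1 / 2) ^ i)) := by
  classical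
  have hdense : (Measure.infinitePi (fun _ : Ξ => coin)).MeasureDense (measurableCylinders (fun _ : Ξ => Bool)) :=
    Measure.MeasureDense.of_generateFrom_isSetAlgebra_finite _ isSetAlgebra_measurableCylinders
      generateFrom_measurableCylinders.symm
  have h1 : ∀ (g : Γ) (i : ℕ), ∃ t ∈ measurableCylinders (fun _ : Ξ => Bool),
      (Measure.infinitePi (fun _ : Ξ => coin)) (symmDiff {ω | Ψ ω g = true} t) < ENNReal.ofReal ((1 / 2) ^ i) := by
    intro g i
    have hms : MeasurableSet {ω | Ψ ω g = true} := by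
      have : Measurable fun ω => Ψ ω g := (measurable_pi_apply g).comp hΨ
      exact this (measurableSet_singleton true)
    exact hdense.approx _ hms (measure_ne_top _ _) _ (by positivity)
  choose B hB hB2 using h1
  have h2 : ∀ (g : Γ) (i : ℕ), ∃ (s : Finset Ξ) (S : Set (s → Bool)), MeasurableSet S ∧ B g i = cylinder s S := by
    intro g i
    have := hB g i
    rw [mem_measurableCylinders] at this
    exact this
  choose J S _ hS2 using h2
  refine ⟨J, fun i ω g => decide (ω ∈ B g i), ?_, ?_, ?_⟩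
  · intro i
    refine measurable_pi_lambda _ fun g => ?_
    apply measurable_to_bool
    have : (fun ω => decide (ω ∈ B g i)) ⁻¹' {true} = B g i := by
      ext ω
      simp
    rw [this]
    exact hdense.measurable _ (hB g i)
  · intro g i ω ω' h
    have : (ω ∈ B g i) ↔ (ω' ∈ B g i) := by
      rw [hS2 g i, mem_cylinder, mem_cylinder]
      have : (J g i).restrict ω = (J g i).restrict ω' := by
        funext x
        exact h x.1 x.2
      rw [this]
    simp only [this]
  · intro g i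
    refine (measure_mono ?_).trans (hB2 g i).le
    intro ω hω
    simp only [Set.mem_ofPred_eq] at hω
    rw [Set.mem_symmDiff]
    by_cases h1 : ω ∈ B g i
    · right
      refine ⟨h1, ?_⟩
      simp only [Set.mem_ofPred_eq]
      intro h2
      apply hω
      rw [h2]
      simp [h1]
    · left
      refine ⟨?_, h1⟩
      simp only [Set.mem_ofPred_eq]
      by_contra h2
      rw [Bool.not_eq_true] at h2
      apply hω
      rw [h2]
      simp [h1]

theorem integrable_cont {Γ Y : Type} [MeasurableSpace Y] (μ : Measure Y) [IsFiniteMeasure μ]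
    (hm : ∀ f : C(Γ → Bool, ℝ), Measurable f) (f : C(Γ → Bool, ℝ)) (Φ : Y → (Γ → Bool))
    (hΦ : Measurable Φ) : Integrable (fun ω => f (Φ ω)) μ := by
  refine Integrable.of_bound (C := ‖f‖) ((hm f).comp hΦ).aestronglyMeasurable ?_
  exact Filter.Eventually.of_forall fun ω => f.norm_coe_le_norm _

theorem limA (Γ Ξ : Type) (hm : ∀ f : C(Γ → Bool, ℝ), Measurable f)
    (Ψ : (Ξ → Bool) → (Γ → Bool)) (hΨ : Measurable Ψ) (Φ : ℕ → (Ξ → Bool) → (Γ → Bool))
    (hΦ : ∀ i, Measurable (Φ i))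
    (hP : ∀ g i, (Measure.infinitePi (fun _ : Ξ => coin)) {ω | Φ i ω g ≠ Ψ ω g} ≤ ENNReal.ofReal ((1 / 2) ^ i))
    (f : C(Γ → Bool, ℝ)) :
    Filter.Tendsto (fun i => ∫ ω, f (Φ i ω) ∂(Measure.infinitePi (fun _ : Ξ => coin))) Filter.atTop
      (nhds (∫ ω, f (Ψ ω) ∂(Measure.infinitePi (fun _ : Ξ => coin)))) := by
  classical
  rw [Metric.tendsto_atTop]
  intro ε hε
  obtain ⟨G, hG⟩ := unif_approx f (ε / 2) (by positivity)
  have hlim : Filter.Tendsto (fun i : ℕ => 2 * ‖f‖ * (G.card * (1 / 2 : ℝ) ^ i)) Filter.atTop (nhds 0) := by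
    have := ((tendsto_pow_atTop_nhds_zero_of_lt_one (by norm_num : (0:ℝ) ≤ 1 / 2) (by norm_num)).const_mul (G.card : ℝ)).const_mul (2 * ‖f‖)
    simpa using this
  obtain ⟨N, hN⟩ := (Filter.eventually_atTop.mp (hlim.eventually (gt_mem_nhds (show (0:ℝ) < ε / 2 by positivity))))
  refine ⟨N, fun i hi => ?_⟩
  set P := Measure.infinitePi (fun _ : Ξ => coin) with hPdef
  set E : Set (Ξ → Bool) := ⋃ g ∈ G, {ω | Φ i ω g ≠ Ψ ω g} with hE
  have hEm : MeasurableSet E := by
    refine Finset.measurableSet_biUnion _ fun g _ => ?_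
    have h1 : Measurable fun ω => Φ i ω g := (measurable_pi_apply g).comp (hΦ i)
    have h2 : Measurable fun ω => Ψ ω g := (measurable_pi_apply g).comp hΨ
    exact (measurableSet_eq_fun h1 h2).compl
  have hPE : P.real E ≤ G.card * (1 / 2 : ℝ) ^ i := by
    have h1 : P E ≤ ∑ g ∈ G, P {ω | Φ i ω g ≠ Ψ ω g} := measure_biUnion_finset_le _ _
    have h2 : ∑ g ∈ G, P {ω | Φ i ω g ≠ Ψ ω g} ≤ ∑ g ∈ G, ENNReal.ofReal ((1 / 2 : ℝ) ^ i) :=
      Finset.sum_le_sum fun g _ => hP g i
    have h3 : ∑ g ∈ G, ENNReal.ofReal ((1 / 2 : ℝ) ^ i) = ENNReal.ofReal (G.card * (1 / 2 : ℝ) ^ i) := by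
      rw [Finset.sum_const, nsmul_eq_mul, ENNReal.ofReal_mul (by positivity), ENNReal.ofReal_natCast]
    rw [measureReal_def]
    apply ENNReal.toReal_le_of_le_ofReal (by positivity)
    exact (h1.trans h2).trans h3.le
  rw [Real.dist_eq, ← integral_sub (integrable_cont P hm f (Φ i) (hΦ i)) (integrable_cont P hm f Ψ hΨ)]
  have hbound : ∀ ω, |f (Φ i ω) - f (Ψ ω)| ≤ ε / 2 + E.indicator (fun _ => 2 * ‖f‖) ω := by
    intro ω
    by_cases hω : ω ∈ E
    · rw [Set.indicator_of_mem hω]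
      have h1 : |f (Φ i ω)| ≤ ‖f‖ := f.norm_coe_le_norm _
      have h2 : |f (Ψ ω)| ≤ ‖f‖ := f.norm_coe_le_norm _
      have := abs_sub (f (Φ i ω)) (f (Ψ ω))
      linarith
    · rw [Set.indicator_of_notMem hω, add_zero]
      apply le_of_lt
      apply hG
      intro g hg
      by_contra hne
      apply hω
      rw [hE, Set.mem_iUnion₂]
      exact ⟨g, hg, hne⟩
  have hint1 : Integrable (fun ω => ε / 2 + E.indicator (fun _ => 2 * ‖f‖) ω) P :=
    (integrable_const _).add ((integrable_const _).indicator hEm)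
  calc |∫ ω, (f (Φ i ω) - f (Ψ ω)) ∂P| ≤ ∫ ω, |f (Φ i ω) - f (Ψ ω)| ∂P := abs_integral_le_integral_abs
    _ ≤ ∫ ω, (ε / 2 + E.indicator (fun _ => 2 * ‖f‖) ω) ∂P := by
        refine integral_mono ?_ hint1 hbound
        exact ((integrable_cont P hm f (Φ i) (hΦ i)).sub (integrable_cont P hm f Ψ hΨ)).abs
    _ = ε / 2 + P.real E * (2 * ‖f‖) := by
        rw [integral_add (integrable_const _) ((integrable_const _).indicator hEm), integral_const,
          integral_indicator_const _ hEm]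
        simp
    _ ≤ ε / 2 + 2 * ‖f‖ * (G.card * (1 / 2 : ℝ) ^ i) := by
        have : 0 ≤ 2 * ‖f‖ := by positivity
        have := mul_le_mul_of_nonneg_right hPE this
        linarith
    _ < ε / 2 + ε / 2 := by
        have := hN i hi
        linarith
    _ = ε := by ring

theorem exists_level {Ξ : Type} (ι : Ξ → (ℕ → Bool)) (hι : Function.Injective ι) (J : Finset Ξ) :
    ∃ L : ℕ, ∀ l ≥ L, Function.Injective (fun (x : J) (j : Fin l) => ι x.1 j) := by
  classical
  have h1 : ∀ p : Ξ × Ξ, ∃ j : ℕ, p.1 ≠ p.2 → ι p.1 j ≠ ι p.2 j := by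
    intro p
    by_cases h : p.1 = p.2
    · exact ⟨0, fun hn => absurd h hn⟩
    · have h2 : ι p.1 ≠ ι p.2 := fun he => h (hι he)
      obtain ⟨j, hj⟩ := Function.ne_iff.mp h2
      exact ⟨j, fun _ => hj⟩
  choose j hj using h1
  refine ⟨(J ×ˢ J).sup (fun p => j p + 1), fun l hl => ?_⟩
  intro x y hxy
  by_contra hne
  have hne' : x.1 ≠ y.1 := fun h => hne (Subtype.ext h)
  have h2 : j (x.1, y.1) + 1 ≤ l :=
    (Finset.le_sup (f := fun p => j p + 1) (Finset.mem_product.mpr ⟨x.2, y.2⟩)).trans hl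
  have h3 := congrFun hxy ⟨j (x.1, y.1), h2⟩
  exact hj (x.1, y.1) hne' h3

theorem limB (Γ Ξ : Type) (ι : Ξ → (ℕ → Bool)) (hι : Function.Injective ι)
    (hm : ∀ f : C(Γ → Bool, ℝ), Measurable f)
    (Φ : (Ξ → Bool) → (Γ → Bool)) (hΦ : Measurable Φ) (J : Γ → Finset Ξ)
    (hJ : ∀ g ω ω', (∀ x ∈ J g, ω x = ω' x) → Φ ω g = Φ ω' g)
    (f : C(Γ → Bool, ℝ)) :
    Filter.Tendsto (fun l : ℕ => ∫ h : (Fin l → Bool) → Bool, f (Φ (fun x => h (fun j => ι x j)))
        ∂(Measure.infinitePi (fun _ : Fin l → Bool => coin))) Filter.atTop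
      (nhds (∫ ω, f (Φ ω) ∂(Measure.infinitePi (fun _ : Ξ => coin)))) := by
  classical
  rw [Metric.tendsto_atTop]
  intro ε hε
  obtain ⟨G, hG⟩ := unif_approx f (ε / 4) (by positivity)
  set JJ : Finset Ξ := G.biUnion J with hJJ
  obtain ⟨L, hL⟩ := exists_level ι hι JJ
  refine ⟨L, fun l hl => ?_⟩
  let F : (JJ → Bool) → ℝ := fun a => f (Φ (fun x => if hx : x ∈ JJ then a ⟨x, hx⟩ else false))
  have hF : ∀ ω : Ξ → Bool, |f (Φ ω) - F (fun x : JJ => ω x.1)| < ε / 4 := by
    intro ω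
    apply hG
    intro g hg
    apply hJ
    intro x hx
    have hxJ : x ∈ JJ := Finset.mem_biUnion.mpr ⟨g, hg, hx⟩
    rw [dif_pos hxJ]
  have key : ∀ (Y : Type) (μ : Measure (Y → Bool)) (_ : IsProbabilityMeasure μ) (c : (Y → Bool) → (Ξ → Bool)) (_ : Measurable c),
      |∫ h, f (Φ (c h)) ∂μ - ∫ h, F (fun x : JJ => c h x.1) ∂μ| ≤ ε / 4 := by
    intro Y μ hμ c hc
    have hi1 : Integrable (fun h => f (Φ (c h))) μ := integrable_cont μ hm f (fun h => Φ (c h)) (hΦ.comp hc)
    have hcm : Measurable (fun h => (fun x : JJ => c h x.1)) :=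
      measurable_pi_lambda _ fun x => (measurable_pi_apply _).comp hc
    have hi2 : Integrable (fun h => F (fun x : JJ => c h x.1)) μ := by
      refine Integrable.of_bound (C := ‖f‖) ((measurable_of_finite F).comp hcm).aestronglyMeasurable ?_
      exact Filter.Eventually.of_forall fun ω => f.norm_coe_le_norm _
    rw [← integral_sub hi1 hi2]
    calc |∫ h, (f (Φ (c h)) - F (fun x : JJ => c h x.1)) ∂μ| ≤ ∫ h, |f (Φ (c h)) - F (fun x : JJ => c h x.1)| ∂μ :=
          abs_integral_le_integral_abs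
      _ ≤ ∫ h, (ε / 4) ∂μ := by
          refine integral_mono (hi1.sub hi2).abs (integrable_const _) fun h => (hF (c h)).le
      _ = ε / 4 := by simp
  have hc1 : Measurable (fun (h : (Fin l → Bool) → Bool) (x : Ξ) => h (fun j => ι x j)) :=
    measurable_pi_lambda _ fun x => measurable_pi_apply _
  have k1 := key (Fin l → Bool) (Measure.infinitePi (fun _ : Fin l → Bool => coin)) inferInstance _ hc1
  have k2 := key Ξ (Measure.infinitePi (fun _ : Ξ => coin)) inferInstance id measurable_id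
  have e1 := integral_comp_coin (fun (x : JJ) (j : Fin l) => ι x.1 j) (hL l hl) F
  have e2 := integral_comp_coin (fun (x : JJ) => x.1) Subtype.val_injective F
  simp only [id_eq] at k2
  rw [e1] at k1
  rw [e2] at k2
  rw [Real.dist_eq]
  rw [abs_le] at k1 k2
  rw [abs_lt]
  constructor <;> linarith [k1.1, k1.2, k2.1, k2.2]

/-- The functional `f ↦ E f(Ψ)` on `C(2^Γ)` is measurable for the sigma-algebra generated by point evaluations,
when `Ψ` is a measurable function of at most continuum many fair coins. -/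
theorem measurable_of_coupling (Γ Ξ : Type) (ι : Ξ → (ℕ → Bool)) (hι : Function.Injective ι)
    (hm : ∀ f : C(Γ → Bool, ℝ), Measurable f)
    (Ψ : (Ξ → Bool) → (Γ → Bool)) (hΨ : Measurable Ψ) :
    @Measurable C(Γ → Bool, ℝ) ℝ (⨆ z : Γ → Bool, MeasurableSpace.comap (fun f : C(Γ → Bool, ℝ) => f z) (borel ℝ))
      (borel ℝ)
      (fun f : C(Γ → Bool, ℝ) => ∫ ω, f (Ψ ω) ∂(Measure.infinitePi (fun _ : Ξ => coin))) := by
  classical
  let mC : MeasurableSpace C(Γ → Bool, ℝ) :=
    ⨆ z : Γ → Bool, MeasurableSpace.comap (fun f : C(Γ → Bool, ℝ) => f z) (borel ℝ)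
  change Measurable (fun f : C(Γ → Bool, ℝ) => ∫ ω, f (Ψ ω) ∂(Measure.infinitePi (fun _ : Ξ => coin)))
  have heval : ∀ z : Γ → Bool, Measurable (fun f : C(Γ → Bool, ℝ) => f z) := by
    intro z
    rw [measurable_iff_comap_le]
    exact le_iSup (fun z : Γ → Bool => MeasurableSpace.comap (fun f : C(Γ → Bool, ℝ) => f z) (borel ℝ)) z
  obtain ⟨J, Φ, hΦ, hJ, hP⟩ := exists_approx Γ Ξ Ψ hΨ
  have hfin : ∀ i l : ℕ, Measurable (fun f : C(Γ → Bool, ℝ) =>
      ∫ h : (Fin l → Bool) → Bool, f (Φ i (fun x => h (fun j => ι x j)))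
        ∂(Measure.infinitePi (fun _ : Fin l → Bool => coin))) := by
    intro i l
    have h1 : (fun f : C(Γ → Bool, ℝ) =>
      ∫ h : (Fin l → Bool) → Bool, f (Φ i (fun x => h (fun j => ι x j)))
        ∂(Measure.infinitePi (fun _ : Fin l → Bool => coin))) = fun f : C(Γ → Bool, ℝ) =>
        ∑ h : (Fin l → Bool) → Bool, (Measure.infinitePi (fun _ : Fin l → Bool => coin)).real {h} •
          f (Φ i (fun x => h (fun j => ι x j))) := by
      funext f
      exact integral_fintype (Integrable.of_finite)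
    rw [h1]
    refine Finset.measurable_sum _ fun h _ => ?_
    simp only [smul_eq_mul]
    exact (heval _).const_mul _
  have hmid : ∀ i : ℕ, Measurable (fun f : C(Γ → Bool, ℝ) =>
      ∫ ω, f (Φ i ω) ∂(Measure.infinitePi (fun _ : Ξ => coin))) := by
    intro i
    refine measurable_of_tendsto_metrizable (hfin i) ?_
    rw [tendsto_pi_nhds]
    intro f
    exact limB Γ Ξ ι hι hm (Φ i) (hΦ i) (fun g => J g i) (fun g ω ω' h => hJ g i ω ω' h) f
  refine measurable_of_tendsto_metrizable hmid ?_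
  rw [tendsto_pi_nhds]
  intro f
  exact limA Γ Ξ hm Ψ hΨ Φ hΦ hP f

end Pool.Agent.Helper882.Dirac
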