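import Pool.Agent.Helper882.Dirac.Space
import Pool.Agent.Helper882.Dirac.Coupling
import Pool.Agent.Helper882.Dirac.Sampling
import Pool.Agent.Helper882.Dirac.Represent
import Pool.Agent.Helper882.Dirac.Decomp

set_option autoImplicit false
open MeasureTheory

namespace Pool.Agent.Helper882.Dirac

/-- injection of pairs -/
def pairInj {Γ : Type} (ι : Γ → (ℕ → Bool)) : Γ × ℕ → (ℕ → Bool) := fun p m =>
  if m % 2 = 0 then ι p.1 (m / 2) else decide (m / 2 = p.2)

theorem pairInj_injective {Γ : Type} (ι : Γ → (ℕ → Bool)) (hι : Function.Injective ι) :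
    Function.Injective (pairInj ι) := by
  rintro ⟨γ, n⟩ ⟨γ', n'⟩ h
  have h1 : γ = γ' := by
    apply hι
    funext j
    have := congrFun h (2 * j)
    simpa [pairInj] using this
  have h2 : n = n' := by
    have := congrFun h (2 * n + 1)
    have e1 : (2 * n + 1) % 2 = 1 := by omega
    have e2 : (2 * n + 1) / 2 = n := by omega
    simpa [pairInj, e1, e2] using this
  rw [h1, h2]

theorem cube_pos (Γ : Type) (ι : Γ → (ℕ → Bool)) (hι : Function.Injective ι)
    (ψ : C(Γ → Bool, ℝ) →L[ℝ] ℝ) (hψ : ∀ f : C(Γ → Bool, ℝ), 0 ≤ f → 0 ≤ ψ f) :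
    @Measurable _ _ (evSigma (Γ → Bool)) (borel ℝ) ψ := by
  obtain ⟨ν, hν, hrep⟩ := exists_measure_of_pos Γ ψ hψ
  have hm := continuous_measurable_pi Γ
  by_cases h0 : ν = 0
  · have : (ψ : C(Γ → Bool, ℝ) → ℝ) = fun _ => (0 : ℝ) := by
      funext f
      rw [hrep f, h0]; simp
    rw [this]
    exact @measurable_const _ _ (borel ℝ) (evSigma (Γ → Bool)) 0
  · have hne : ν Set.univ ≠ 0 := by
      simpa [Measure.measure_univ_eq_zero] using h0
    have hfin : ν Set.univ ≠ ⊤ := measure_ne_top ν _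
    let ν' : Measure (Γ → Bool) := (ν Set.univ)⁻¹ • ν
    have hp : IsProbabilityMeasure ν' := ⟨by
      simp only [ν', Measure.smul_apply, smul_eq_mul]
      exact ENNReal.inv_mul_cancel hne hfin⟩
    obtain ⟨Ψ, hΨ, hlaw⟩ := exists_coupling exists_threshold Γ ν'
    have key := measurable_of_coupling Γ (Γ × ℕ) (pairInj ι) (pairInj_injective ι hι) hm Ψ hΨ
    have heq : (ψ : C(Γ → Bool, ℝ) → ℝ) = fun f => (ν Set.univ).toReal *
        ∫ ω, f (Ψ ω) ∂(Measure.infinitePi (fun _ : Γ × ℕ => coin)) := by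
      funext f
      have h1 : ∫ ω, f (Ψ ω) ∂(Measure.infinitePi (fun _ : Γ × ℕ => coin)) = ∫ z, f z ∂ν' := by
        rw [← hlaw, integral_map hΨ.aemeasurable (hm f).aestronglyMeasurable]
      rw [h1, hrep f]
      simp only [ν', integral_smul_measure, ENNReal.toReal_inv, smul_eq_mul]
      rw [← mul_assoc, mul_inv_cancel₀, one_mul]
      exact (ENNReal.toReal_ne_zero.mpr ⟨hne, hfin⟩)
    rw [heq]
    letI : MeasurableSpace C(Γ → Bool, ℝ) := evSigma (Γ → Bool)
    exact Measurable.const_mul key _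

theorem cube_measurable (Γ : Type) (ι : Γ → (ℕ → Bool)) (hι : Function.Injective ι)
    (ψ : C(Γ → Bool, ℝ) →L[ℝ] ℝ) :
    @Measurable _ _ (evSigma (Γ → Bool)) (borel ℝ) ψ := by
  obtain ⟨P, Q, hP, hQ, h⟩ := exists_pos_decomp (Γ → Bool) ψ
  have : (ψ : C(Γ → Bool, ℝ) → ℝ) = fun f => P f - Q f := by
    funext f; rw [h]; rfl
  rw [this]
  letI : MeasurableSpace C(Γ → Bool, ℝ) := evSigma (Γ → Bool)
  exact Measurable.sub (cube_pos Γ ι hι P hP) (cube_pos Γ ι hι Q hQ)

end Pool.Agent.Helper882.Dirac
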