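import Mathlib

set_option autoImplicit false

namespace Pool.Agent.Helper882.Dirac


namespace EdgarAux

open MeasureTheory Set

/-- boxes -/
def bx {I : Type} (t : Finset I × (I → ℝ) × (I → ℝ)) : Set (I → ℝ) :=
  Set.pi (t.1 : Set I) fun i => Ioo (t.2.1 i) (t.2.2 i)

theorem mem_bx {I : Type} {t : Finset I × (I → ℝ) × (I → ℝ)} {w : I → ℝ} :
    w ∈ bx t ↔ ∀ i ∈ t.1, t.2.1 i < w i ∧ w i < t.2.2 i := by
  simp [bx, Set.mem_pi]

theorem exists_bx {I : Type} {O : Set (I → ℝ)} (hO : IsOpen O) {w : I → ℝ} (hw : w ∈ O) :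
    ∃ t : Finset I × (I → ℝ) × (I → ℝ), w ∈ bx t ∧ bx t ⊆ O := by
  obtain ⟨s, u, h1, h2⟩ := isOpen_pi_iff.1 hO w hw
  have h3 : ∀ i : I, ∃ pq : ℝ × ℝ, i ∈ s → w i ∈ Ioo pq.1 pq.2 ∧ Ioo pq.1 pq.2 ⊆ u i := by
    intro i
    by_cases hi : i ∈ s
    · obtain ⟨l, r, h4, h5⟩ := mem_nhds_iff_exists_Ioo_subset.1 ((h1 i hi).1.mem_nhds (h1 i hi).2)
      exact ⟨(l, r), fun _ => ⟨h4, h5⟩⟩
    · exact ⟨(0, 0), fun h => absurd h hi⟩
  choose pq hpq using h3
  refine ⟨(s, fun i => (pq i).1, fun i => (pq i).2), ?_, ?_⟩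
  · rw [mem_bx]
    intro i hi
    exact (hpq i hi).1
  · intro v hv
    rw [mem_bx] at hv
    exact h2 fun i hi => (hpq i hi).2 (hv i hi)

theorem countable_bx {I : Type} (F : Set (Finset I × (I → ℝ) × (I → ℝ)))
    (h1 : ∀ t ∈ F, (bx t).Nonempty) (h2 : F.PairwiseDisjoint bx) : F.Countable := by
  let μ : Measure (I → ℝ) := Measure.infinitePi fun _ : I => ProbabilityTheory.gaussianReal 0 1
  have hpos : ∀ t ∈ F, 0 < μ (bx t) := by
    intro t ht
    obtain ⟨w, hw⟩ := h1 t ht
    rw [mem_bx] at hw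
    have e1 : μ (bx t) = ∏ i ∈ t.1, (ProbabilityTheory.gaussianReal 0 1) (Ioo (t.2.1 i) (t.2.2 i)) :=
      Measure.infinitePi_pi (fun _ : I => ProbabilityTheory.gaussianReal 0 1)
        (fun i _ => measurableSet_Ioo)
    rw [e1]
    refine CanonicallyOrderedAdd.prod_pos.2 ?_
    intro i hi
    have hac : volume ≪ ProbabilityTheory.gaussianReal 0 1 :=
      ProbabilityTheory.gaussianReal_absolutelyContinuous' 0 one_ne_zero
    rw [pos_iff_ne_zero]
    intro h0
    have h3 := hac h0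
    rw [Real.volume_Ioo, ENNReal.ofReal_eq_zero] at h3
    have := hw i hi
    linarith
  have h3 := Measure.countable_meas_pos_of_disjoint_iUnion (μ := μ) (As := fun t : F => bx t.1)
    (fun t => MeasurableSet.pi t.1.1.countable_toSet fun i _ => measurableSet_Ioo)
    (fun t t' htt => h2 t.2 t'.2 (fun h => htt (Subtype.ext h)))
  have h4 : {t : F | 0 < μ (bx t.1)} = univ := by
    ext t; simpa using hpos t.1 t.2
  rw [h4, Set.countable_univ_iff] at h3
  exact h3

theorem edgar_abs {I X : Type} (e : X → I → ℝ)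
    (hB : ∀ (s : Finset I) (v : I → ℝ), ∃ x, ∀ i ∈ s, e x i = v i) (g : X → ℝ)
    (hg : ∀ U : Set ℝ, IsOpen U → ∃ O : Set (I → ℝ), IsOpen O ∧ g ⁻¹' U = e ⁻¹' O) (s : ℝ) :
    ∃ M : Set (I → ℝ), MeasurableSet M ∧ g ⁻¹' Iic s = e ⁻¹' M := by
  classical
  choose O hO1 hO2 using fun r : ℚ => hg (Iio (r : ℝ)) isOpen_Iio
  have hF : ∀ r : ℚ, ∃ F : Set (Finset I × (I → ℝ) × (I → ℝ)),
      (∀ t ∈ F, (bx t).Nonempty ∧ bx t ⊆ O r) ∧ F.PairwiseDisjoint bx ∧
      ∀ t, (bx t).Nonempty → bx t ⊆ O r → ∃ t' ∈ F, (bx t ∩ bx t').Nonempty := by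
    intro r
    obtain ⟨F, hF⟩ := zorn_subset
      {F : Set (Finset I × (I → ℝ) × (I → ℝ)) | (∀ t ∈ F, (bx t).Nonempty ∧ bx t ⊆ O r) ∧
        F.PairwiseDisjoint bx} (by
      intro c hc hchain
      refine ⟨⋃₀ c, ⟨?_, ?_⟩, fun s hs => Set.subset_sUnion_of_mem hs⟩
      · rintro t ⟨S, hS, ht⟩
        exact (hc hS).1 t ht
      · rintro a ⟨S, hS, ha⟩ b ⟨T, hT, hb⟩ hab
        rcases hchain.total hS hT with h | h
        · exact (hc hT).2 (h ha) hb hab
        · exact (hc hS).2 ha (h hb) hab)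
    refine ⟨F, hF.prop.1, hF.prop.2, fun t ht1 ht2 => ?_⟩
    by_contra hcon
    push Not at hcon
    have htF : t ∉ F := by
      intro htF
      have := hcon t htF
      rw [Set.inter_self] at this
      exact ht1.ne_empty this
    have hmem : insert t F ∈ {F : Set (Finset I × (I → ℝ) × (I → ℝ)) |
        (∀ t ∈ F, (bx t).Nonempty ∧ bx t ⊆ O r) ∧ F.PairwiseDisjoint bx} := by
      refine ⟨?_, ?_⟩
      · rintro t' (rfl | ht')
        · exact ⟨ht1, ht2⟩
        · exact hF.prop.1 t' ht'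
      · refine hF.prop.2.insert fun t' ht' _ => ?_
        exact Set.disjoint_iff_inter_eq_empty.2 (hcon t' ht')
    exact htF (hF.le_of_ge hmem (Set.subset_insert t F) (Set.mem_insert t F))
  choose F hF1 hF2 hF3 using hF
  have hFc : ∀ r, (F r).Countable := fun r => countable_bx _ (fun t ht => (hF1 r t ht).1) (hF2 r)
  let J : ℚ → Set I := fun r => ⋃ t ∈ F r, (t.1 : Set I)
  have hJc : ∀ r, (J r).Countable := fun r => (hFc r).biUnion fun t _ => t.1.countable_toSet
  let R : ∀ r : ℚ, (I → ℝ) → (J r → ℝ) := fun r w j => w j.1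
  have hRc : ∀ r, Continuous (R r) := fun r => continuous_pi fun j => continuous_apply _
  have hRm : ∀ r, Measurable (R r) := fun r => measurable_pi_iff.2 fun j => measurable_pi_apply _
  let U : ∀ r : ℚ, Set (J r → ℝ) := fun r =>
    {u | ∃ t ∈ F r, ∀ j : J r, (j : I) ∈ t.1 → t.2.1 j < u j ∧ u j < t.2.2 j}
  refine ⟨⋂ r : {r : ℚ // s < r}, (R r.1) ⁻¹' closure (U r.1), ?_, ?_⟩
  · refine MeasurableSet.iInter fun r => ?_
    haveI : Countable (J r.1) := (hJc r.1).to_subtype
    exact hRm r.1 isClosed_closure.measurableSet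
  · ext x
    simp only [mem_preimage, mem_Iic, mem_iInter]
    constructor
    · rintro hx ⟨r, hr⟩
      have hxO : e x ∈ O r := by
        have : x ∈ g ⁻¹' Iio (r : ℝ) := lt_of_le_of_lt hx hr
        rw [hO2 r] at this
        exact this
      rw [mem_closure_iff]
      intro N hN hxN
      obtain ⟨t, ht1, ht2⟩ := exists_bx ((hO1 r).inter (hN.preimage (hRc r)))
        (show e x ∈ O r ∩ (R r) ⁻¹' N from ⟨hxO, hxN⟩)
      obtain ⟨t', ht', w, hw1, hw2⟩ := hF3 r t ⟨_, ht1⟩ (fun v hv => (ht2 hv).1)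
      refine ⟨R r w, (ht2 hw1).2, t', ht', fun j hj => ?_⟩
      rw [mem_bx] at hw2
      exact hw2 j.1 hj
    · intro hx
      by_contra hlt
      push Not at hlt
      obtain ⟨r, hr1, hr2⟩ := exists_rat_btwn hlt
      obtain ⟨O', hO'1, hO'2⟩ := hg (Ioi (r : ℝ)) isOpen_Ioi
      have hxO' : e x ∈ O' := by
        have : x ∈ g ⁻¹' Ioi (r : ℝ) := hr2
        rw [hO'2] at this
        exact this
      obtain ⟨t1, ht1, ht2⟩ := exists_bx hO'1 hxO'
      have hcl := hx ⟨r, hr1⟩
      rw [mem_closure_iff] at hcl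
      have hNo : IsOpen {u : J r → ℝ | ∀ j : J r, (j : I) ∈ t1.1 →
          t1.2.1 j < u j ∧ u j < t1.2.2 j} := by
        have hfin : {j : J r | (j : I) ∈ t1.1}.Finite :=
          (t1.1.finite_toSet).preimage (Subtype.val_injective.injOn)
        have heq : {u : J r → ℝ | ∀ j : J r, (j : I) ∈ t1.1 →
          t1.2.1 j < u j ∧ u j < t1.2.2 j} = Set.pi {j : J r | (j : I) ∈ t1.1}
            (fun j => Ioo (t1.2.1 j) (t1.2.2 j)) := by
          ext u; simp [Set.mem_pi]
        rw [heq]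
        exact isOpen_set_pi hfin fun j _ => isOpen_Ioo
      rw [mem_bx] at ht1
      obtain ⟨u, hu1, t, ht, hu2⟩ := hcl _ hNo (fun j hj => ht1 j.1 hj)
      obtain ⟨y, hy⟩ := hB (t1.1 ∪ t.1) (fun i => if h : i ∈ J r then u ⟨i, h⟩ else e x i)
      have hyt : e y ∈ bx t := by
        rw [mem_bx]
        intro i hi
        have hiJ : i ∈ J r := Set.mem_biUnion ht hi
        rw [hy i (Finset.mem_union_right _ hi), dif_pos hiJ]
        exact hu2 ⟨i, hiJ⟩ hi
      have hyt1 : e y ∈ bx t1 := by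
        rw [mem_bx]
        intro i hi
        rw [hy i (Finset.mem_union_left _ hi)]
        by_cases hiJ : i ∈ J r
        · rw [dif_pos hiJ]
          exact hu1 ⟨i, hiJ⟩ hi
        · rw [dif_neg hiJ]
          exact ht1 i hi
      have h1 : g y < r := by
        have : y ∈ e ⁻¹' O r := (hF1 r t ht).2 hyt
        rw [← hO2 r] at this
        exact this
      have h2 : (r : ℝ) < g y := by
        have : y ∈ e ⁻¹' O' := ht2 hyt1
        rw [← hO'2] at this
        exact this
      exact lt_asymm h1 h2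

/-- finitely many linearly independent functionals take arbitrary values -/
theorem exists_values {X : Type} [NormedAddCommGroup X] [NormedSpace ℝ X] {I : Type}
    {b : I → (X →L[ℝ] ℝ)} (hb : LinearIndependent ℝ b) (s : Finset I) (v : I → ℝ) :
    ∃ x, ∀ i ∈ s, b i x = v i := by
  classical
  let f : X →ₗ[ℝ] (s → ℝ) := LinearMap.pi fun i : s => (b i.1 : X →ₗ[ℝ] ℝ)
  have hf : LinearMap.range f = ⊤ := by
    by_contra hne
    obtain ⟨φ, hφ0, hφ⟩ := Submodule.exists_le_ker_of_lt_top (LinearMap.range f) (lt_top_iff_ne_top.2 hne)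
    apply hφ0
    have h1 : ∀ y : s → ℝ, φ y = ∑ i, y i * φ (Pi.single i 1) := by
      intro y
      conv_lhs => rw [← Finset.univ_sum_single y]
      rw [map_sum]
      refine Finset.sum_congr rfl fun i _ => ?_
      have : (Pi.single i (y i) : s → ℝ) = y i • Pi.single i 1 := by
        ext j
        by_cases hj : j = i
        · subst hj; simp
        · simp [hj]
      rw [this, map_smul, smul_eq_mul]
    have h2 : ∑ i : s, φ (Pi.single i 1) • b i.1 = 0 := by
      ext x
      have h3 : φ (f x) = 0 := hφ ⟨x, rfl⟩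
      rw [h1] at h3
      simp only [ContinuousLinearMap.sum_apply, ContinuousLinearMap.smul_apply, smul_eq_mul,
        ContinuousLinearMap.zero_apply]
      rw [← h3]
      refine Finset.sum_congr rfl fun i _ => ?_
      rw [mul_comm]
      rfl
    have h4 := (hb.comp (fun i : s => i.1) Subtype.val_injective)
    rw [Fintype.linearIndependent_iff] at h4
    have h5 := h4 (fun i => φ (Pi.single i 1)) h2
    ext y
    simp [h5]
  have : (fun i : s => v i.1) ∈ LinearMap.range f := by rw [hf]; trivial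
  obtain ⟨x, hx⟩ := this
  exact ⟨x, fun i hi => congrFun hx ⟨i, hi⟩⟩

end EdgarAux

/-- Edgar's theorem: a function on a real normed space which is continuous for the weak topology is
measurable for the sigma-algebra generated by the continuous linear functionals. -/
theorem edgar_weak (X : Type) [NormedAddCommGroup X] [NormedSpace ℝ X] (g : X → ℝ)
    (hg : @Continuous X ℝ (⨅ (φ : X →L[ℝ] ℝ), TopologicalSpace.induced (⇑φ) inferInstance) _ g) :
    @Measurable X ℝ (⨆ (φ : X →L[ℝ] ℝ), MeasurableSpace.comap (⇑φ) (borel ℝ)) (borel ℝ) g := by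
  classical
  let b := Module.Basis.ofVectorSpace ℝ (X →L[ℝ] ℝ)
  let I := Module.Basis.ofVectorSpaceIndex ℝ (X →L[ℝ] ℝ)
  let e : X → I → ℝ := fun x i => b i x
  have hle : TopologicalSpace.induced e Pi.topologicalSpace ≤
      (⨅ (φ : X →L[ℝ] ℝ), TopologicalSpace.induced (⇑φ) inferInstance) := by
    refine le_iInf fun φ => ?_
    rw [← continuous_iff_le_induced]
    have h1 : (fun x => φ x) = (fun w : I → ℝ => ∑ i ∈ (b.repr φ).support, (b.repr φ i) * w i) ∘ e := by
      funext x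
      have h2 := b.linearCombination_repr φ
      rw [Finsupp.linearCombination_apply, Finsupp.sum] at h2
      conv_lhs => rw [← h2]
      simp [e]
    have h3 : Continuous (fun w : I → ℝ => ∑ i ∈ (b.repr φ).support, (b.repr φ i) * w i) := by
      fun_prop
    show @Continuous X ℝ (TopologicalSpace.induced e Pi.topologicalSpace) _ (fun x => φ x)
    rw [h1]
    exact @Continuous.comp X (I → ℝ) ℝ (TopologicalSpace.induced e Pi.topologicalSpace) _ _
      e _ h3 continuous_induced_dom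
  have hB : ∀ (s : Finset I) (v : I → ℝ), ∃ x, ∀ i ∈ s, e x i = v i :=
    fun s v => EdgarAux.exists_values b.linearIndependent s v
  have hg' : ∀ U : Set ℝ, IsOpen U → ∃ O : Set (I → ℝ), IsOpen O ∧ g ⁻¹' U = e ⁻¹' O := by
    intro U hU
    have h1 := hle _ (@Continuous.isOpen_preimage X ℝ
      (⨅ (φ : X →L[ℝ] ℝ), TopologicalSpace.induced (⇑φ) inferInstance) _ g hg U hU)
    obtain ⟨O, hO, h2⟩ := h1
    exact ⟨O, hO, h2.symm⟩
  letI m : MeasurableSpace X := ⨆ (φ : X →L[ℝ] ℝ), MeasurableSpace.comap (⇑φ) (borel ℝ)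
  have hem : Measurable e := by
    refine measurable_pi_iff.2 fun i => ?_
    refine measurable_iff_comap_le.2 ?_
    exact le_iSup (fun φ : X →L[ℝ] ℝ => MeasurableSpace.comap (⇑φ) (borel ℝ)) (b i)
  have : Measurable g := by
    refine measurable_of_Iic fun s => ?_
    obtain ⟨M, hM, h1⟩ := EdgarAux.edgar_abs e hB g hg' s
    rw [h1]
    exact hem hM
  exact this

end Pool.Agent.Helper882.Dirac
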