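import Pool.Agent.Helper882.Dirac.Cube

set_option autoImplicit false
open MeasureTheory Set

namespace Pool.Agent.Helper882.Dirac

/-- the points of the cube obtained from finite tables -/
def ph {Γ : Type} (ι : Γ → (ℕ → Bool)) (h : Σ l : ℕ, ((Fin l → Bool) → Bool)) : Γ → Bool :=
  fun γ => h.2 (fun j => ι γ j)

theorem exists_ph {Γ : Type} (ι : Γ → (ℕ → Bool)) (hι : Function.Injective ι) (G : Finset Γ)
    (z : Γ → Bool) : ∃ h, ∀ γ ∈ G, ph ι h γ = z γ := by
  classical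
  obtain ⟨L, hL⟩ := exists_level ι hι G
  have hinj := hL L le_rfl
  refine ⟨⟨L, fun u => if hu : ∃ x : G, (fun j : Fin L => ι x.1 j) = u then z hu.choose.1 else false⟩, ?_⟩
  intro γ hγ
  have hu : ∃ x : G, (fun j : Fin L => ι x.1 j) = (fun j : Fin L => ι γ j) := ⟨⟨γ, hγ⟩, rfl⟩
  have h1 : hu.choose = ⟨γ, hγ⟩ := hinj hu.choose_spec
  show (if hu : ∃ x : G, (fun j : Fin L => ι x.1 j) = (fun j : Fin L => ι γ j) then
    z hu.choose.1 else false) = z γ
  rw [dif_pos hu, h1]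

section
variable {X Γ I : Type} [Fintype X] [TopologicalSpace X] [DiscreteTopology X]
  (F : Γ → Bool → Set (ℕ → X)) (hdisj : ∀ γ, Disjoint (F γ true) (F γ false)) (d : I → ℕ → X)

/-- A bound for a continuous function on the special points extends to the whole space. -/
theorem bound_of_bound (ι : Γ → (ℕ → Bool)) (hι : Function.Injective ι)
    (hF : ∀ γ b, IsOpen (F γ b))
    (hd : ∀ (x : ℕ → X) (k : ℕ) (G : Finset Γ), ∃ i : I, (∀ j < k, d i j = x j) ∧
      ∀ γ ∈ G, ∀ b, (x ∈ F γ b ↔ d i ∈ F γ b))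
    (f : C(KF F, ℝ)) (ε : ℝ)
    (hb : ∀ (i : I) (h : Σ l : ℕ, ((Fin l → Bool) → Bool)), |f (jm F hdisj (d i) (ph ι h))| ≤ ε)
    (p : KF F) : |f p| ≤ ε := by
  refine le_of_forall_pos_le_add fun δ hδ => ?_
  obtain ⟨k, G, hk⟩ := exists_unif F hF f δ hδ
  obtain ⟨i, hi1, hi2⟩ := hd p.1.1 k G
  obtain ⟨h, hh⟩ := exists_ph ι hι G p.1.2
  have h1 : |f p - f (jm F hdisj (d i) (ph ι h))| ≤ δ := by
    apply hk
    · intro j hj
      exact (hi1 j hj).symm
    · intro γ hγ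
      change p.1.2 γ = corr F (d i) (ph ι h) γ
      by_cases hx : ∃ b, p.1.1 ∈ F γ b
      · obtain ⟨b, hb⟩ := hx
        rw [corr_forced F hdisj (d i) _ γ b ((hi2 γ hγ b).mp hb)]
        exact p.2 γ b hb
      · push Not at hx
        rw [corr_free F (d i) _ γ (fun b hb => hx b ((hi2 γ hγ b).mpr hb)), hh γ hγ]
  have h2 := hb i h
  have h3 : |f p| ≤ |f (jm F hdisj (d i) (ph ι h))| + |f p - f (jm F hdisj (d i) (ph ι h))| := by
    have := abs_add_le (f (jm F hdisj (d i) (ph ι h))) (f p - f (jm F hdisj (d i) (ph ι h)))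
    rwa [add_sub_cancel] at this
  linarith

/-- Restriction to a fibre, as a map of function spaces, is measurable. -/
theorem measurable_restrict (x : ℕ → X) :
    @Measurable _ _ (evSigma (KF F)) (evSigma (Γ → Bool))
      (fun f : C(KF F, ℝ) => f.comp (jm F hdisj x)) := by
  let m1 : MeasurableSpace C(KF F, ℝ) := evSigma (KF F)
  rw [measurable_iff_comap_le]
  unfold evSigma
  rw [MeasurableSpace.comap_iSup]
  refine iSup_le fun z => ?_
  rw [MeasurableSpace.comap_comp]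
  exact le_iSup (fun y : KF F => MeasurableSpace.comap (fun f : C(KF F, ℝ) => f y) (borel ℝ))
    (jm F hdisj x z)

theorem measurable_TT [CompactSpace (KF F)] (ι : Γ → (ℕ → Bool)) (hι : Function.Injective ι)
    (φ : C(KF F, ℝ) →L[ℝ] ℝ) (k : ℕ) (w : (Fin k → X) → I) :
    @Measurable _ _ (evSigma (KF F)) (borel ℝ) (fun f : C(KF F, ℝ) => φ (TT F hdisj d k w f)) := by
  let m1 : MeasurableSpace C(KF F, ℝ) := evSigma (KF F)
  let m2 : MeasurableSpace C(Γ → Bool, ℝ) := evSigma (Γ → Bool)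
  have heq : (fun f : C(KF F, ℝ) => φ (TT F hdisj d k w f)) = fun f =>
      ∑ t : Fin k → X, φ (chi (cell F k t) * ((f.comp (jm F hdisj (d (w t)))).comp (pr2 F))) := by
    funext f
    unfold TT
    rw [map_sum]
  rw [heq]
  refine Finset.measurable_sum _ fun t _ => ?_
  let ψ0 : C(Γ → Bool, ℝ) →ₗ[ℝ] ℝ :=
    { toFun := fun g => φ (chi (cell F k t) * (g.comp (pr2 F)))
      map_add' := fun g g' => by
        rw [← map_add]; congr 1
        ext p; simp [mul_add]
      map_smul' := fun c g => by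
        rw [RingHom.id_apply, ← map_smul]; congr 1
        ext p; simp [mul_left_comm] }
  have hψ0 : ∀ g, ‖ψ0 g‖ ≤ (‖φ‖ * ‖(chi (cell F k t) : C(KF F, ℝ))‖) * ‖g‖ := by
    intro g
    have h1 : ‖g.comp (pr2 F)‖ ≤ ‖g‖ := by
      rw [ContinuousMap.norm_le _ (norm_nonneg _)]
      intro p
      exact g.norm_coe_le_norm _
    calc ‖ψ0 g‖ ≤ ‖φ‖ * ‖chi (cell F k t) * (g.comp (pr2 F))‖ := φ.le_opNorm _
      _ ≤ ‖φ‖ * (‖(chi (cell F k t) : C(KF F, ℝ))‖ * ‖g.comp (pr2 F)‖) := by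
        gcongr; exact norm_mul_le _ _
      _ ≤ ‖φ‖ * (‖(chi (cell F k t) : C(KF F, ℝ))‖ * ‖g‖) := by gcongr
      _ = _ := by ring
  have h2 := cube_measurable Γ ι hι (ψ0.mkContinuous _ hψ0)
  exact h2.comp (measurable_restrict F hdisj (d (w t)))

include hdisj in
theorem functional_measurable [Nonempty X] [Countable I] (ι : Γ → (ℕ → Bool)) (hι : Function.Injective ι)
    (hF : ∀ γ b, IsOpen (F γ b))
    (hd : ∀ (x : ℕ → X) (k : ℕ) (G : Finset Γ), ∃ i : I, (∀ j < k, d i j = x j) ∧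
      ∀ γ ∈ G, ∀ b, (x ∈ F γ b ↔ d i ∈ F γ b))
    (φ : C(KF F, ℝ) →L[ℝ] ℝ) :
    @Measurable _ _ (evSigma (KF F)) (borel ℝ) φ := by
  have hcomp : CompactSpace (KF F) := isCompact_iff_compactSpace.mp (isClosed_KF F hF).isCompact
  let m1 : MeasurableSpace C(KF F, ℝ) := evSigma (KF F)
  let good : ℕ → (Σ k : ℕ, ((Fin k → X) → I)) → Set C(KF F, ℝ) := fun n D =>
    {f | ∀ (i : I) (h : Σ l : ℕ, ((Fin l → Bool) → Bool)),
      |(f - TT F hdisj d D.1 D.2 f) (jm F hdisj (d i) (ph ι h))| ≤ 1 / ((n : ℝ) + 1)}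
  have hgood : ∀ n D, MeasurableSet (good n D) := by
    intro n D
    have e : good n D = ⋂ (i : I), ⋂ (h : Σ l : ℕ, ((Fin l → Bool) → Bool)),
        {f : C(KF F, ℝ) | |(f - TT F hdisj d D.1 D.2 f) (jm F hdisj (d i) (ph ι h))| ≤
          1 / ((n : ℝ) + 1)} := by
      ext f; simp only [good, mem_iInter]; rfl
    rw [e]
    refine MeasurableSet.iInter fun i => MeasurableSet.iInter fun h => ?_
    have h1 : Measurable (fun f : C(KF F, ℝ) =>
        (f - TT F hdisj d D.1 D.2 f) (jm F hdisj (d i) (ph ι h))) := by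
      simp only [ContinuousMap.sub_apply, TT_apply]
      exact (measurable_ev (KF F) _).sub (measurable_ev (KF F) _)
    exact measurableSet_le (measurable_abs.comp h1) measurable_const
  have hbound : ∀ n D f, f ∈ good n D → |φ f - φ (TT F hdisj d D.1 D.2 f)| ≤ ‖φ‖ * (1 / ((n : ℝ) + 1)) := by
    intro n D f hf
    have h1 : ‖f - TT F hdisj d D.1 D.2 f‖ ≤ 1 / ((n : ℝ) + 1) := by
      rw [ContinuousMap.norm_le _ (by positivity)]
      intro p
      exact bound_of_bound F hdisj d ι hι hF hd _ _ hf p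
    rw [← map_sub]
    exact (φ.le_opNorm _).trans (by gcongr)
  have hex : ∀ n f, ∃ D, f ∈ good n D := by
    intro n f
    obtain ⟨k, w, h⟩ := exists_data F hdisj d hF hd f (1 / ((n : ℝ) + 1)) (by positivity)
    exact ⟨⟨k, w⟩, fun i h' => h _⟩
  apply measurable_of_Iio
  intro a
  have heq : φ ⁻¹' Iio a = ⋃ n : ℕ, ⋃ D : (Σ k : ℕ, ((Fin k → X) → I)),
      (good n D ∩ {f | φ (TT F hdisj d D.1 D.2 f) < a - ‖φ‖ * (1 / ((n : ℝ) + 1))}) := by
    ext f
    simp only [mem_preimage, mem_Iio, mem_iUnion, mem_inter_iff]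
    constructor
    · intro hfa
      have hlim : Filter.Tendsto (fun n : ℕ => 2 * (‖φ‖ * (1 / ((n : ℝ) + 1)))) Filter.atTop (nhds 0) := by
        have h1 := tendsto_one_div_add_atTop_nhds_zero_nat (𝕜 := ℝ)
        have h2 := (h1.const_mul ‖φ‖).const_mul 2
        simpa using h2
      obtain ⟨n, hn⟩ := (hlim.eventually (gt_mem_nhds (show (0:ℝ) < a - φ f by linarith))).exists
      obtain ⟨D, hD⟩ := hex n f
      refine ⟨n, D, hD, ?_⟩
      have h3 := abs_le.mp (hbound n D f hD)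
      show φ (TT F hdisj d D.1 D.2 f) < a - ‖φ‖ * (1 / ((n : ℝ) + 1))
      linarith [h3.1]
    · rintro ⟨n, D, hD, h⟩
      have h3 := abs_le.mp (hbound n D f hD)
      have h4 : φ (TT F hdisj d D.1 D.2 f) < a - ‖φ‖ * (1 / ((n : ℝ) + 1)) := h
      linarith [h3.2]
  rw [heq]
  refine MeasurableSet.iUnion fun n => MeasurableSet.iUnion fun D => (hgood n D).inter ?_
  exact measurableSet_lt (measurable_TT F hdisj d ι hι φ D.1 D.2) measurable_const

end

end Pool.Agent.Helper882.Dirac
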