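import Pool.Agent.Helper882.Dirac.System

set_option autoImplicit false
open Set Filter Topology

namespace Pool.Agent.Helper882.Dirac

abbrev KK := KF FF

instance : CompactSpace KK := isCompact_iff_compactSpace.mp (isClosed_KF FF isOpen_FF).isCompact

/-- positive functional -/
def Pos {Y : Type} [TopologicalSpace Y] (φ : C(Y, ℝ) →L[ℝ] ℝ) : Prop := ∀ f : C(Y, ℝ), 0 ≤ f → 0 ≤ φ f

/-- value of a functional on a clopen set -/
noncomputable def mu {Y : Type} [TopologicalSpace Y] (φ : C(Y, ℝ) →L[ℝ] ℝ) (S : Set Y) : ℝ := φ (chi S)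

section
variable {Y : Type} [TopologicalSpace Y]

theorem mu_union (φ : C(Y, ℝ) →L[ℝ] ℝ) {S T : Set Y} (hS : IsClopen S) (hT : IsClopen T)
    (h : Disjoint S T) : mu φ (S ∪ T) = mu φ S + mu φ T := by
  unfold mu
  rw [← map_add]
  congr 1
  ext y
  rw [ContinuousMap.add_apply, chi_apply (hS.union hT), chi_apply hS, chi_apply hT,
    Set.indicator_union_of_disjoint h]

theorem mu_mono {φ : C(Y, ℝ) →L[ℝ] ℝ} (hφ : Pos φ) {S T : Set Y} (hS : IsClopen S) (hT : IsClopen T)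
    (h : S ⊆ T) : mu φ S ≤ mu φ T := by
  have h1 : 0 ≤ φ (chi T - chi S) := by
    apply hφ
    intro y
    change (0 : ℝ) ≤ (chi T - chi S) y
    rw [ContinuousMap.sub_apply, chi_apply hS, chi_apply hT, sub_nonneg]
    exact Set.indicator_le_indicator_of_subset h (fun _ => zero_le_one) y
  rw [map_sub] at h1
  unfold mu
  linarith

theorem mu_nonneg {φ : C(Y, ℝ) →L[ℝ] ℝ} (hφ : Pos φ) {S : Set Y} (hS : IsClopen S) : 0 ≤ mu φ S := by
  apply hφ
  intro y
  change (0 : ℝ) ≤ chi S y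
  rw [chi_apply hS]
  exact Set.indicator_nonneg (fun _ _ => zero_le_one) y

theorem mu_diff (φ : C(Y, ℝ) →L[ℝ] ℝ) {S T : Set Y} (hS : IsClopen S) (hT : IsClopen T)
    (h : S ⊆ T) : mu φ (T \ S) = mu φ T - mu φ S := by
  have h1 := mu_union φ (hT.diff hS) hS Set.disjoint_sdiff_left
  rw [Set.diff_union_of_subset h] at h1
  linarith

theorem mu_univ (φ : C(Y, ℝ) →L[ℝ] ℝ) : mu φ Set.univ = φ 1 := by
  unfold mu
  congr 1
  ext y
  rw [chi_apply isClopen_univ]; simp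

end

theorem isClopen_of_dep (P : (ℕ → XX) → Prop) (N : ℕ)
    (h : ∀ x y : ℕ → XX, (∀ j < N, y j = x j) → P x → P y) : IsClopen {p : KK | P p.1.1} := by
  have hc : Continuous (fun p : KK => p.1.1) := continuous_fst.comp continuous_subtype_val
  constructor
  · rw [← isOpen_compl_iff]
    have h1 : IsOpen {x : ℕ → XX | ¬ P x} := isOpen_of_cyl _ fun x hx =>
      ⟨N, fun y hy hP => hx (h y x (fun j hj => (hy j hj).symm) hP)⟩
    exact h1.preimage hc
  · have h1 : IsOpen {x : ℕ → XX | P x} := isOpen_of_cyl _ fun x hx =>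
      ⟨N, fun y hy => h x y hy hx⟩
    exact h1.preimage hc

/-- points which are good up to k -/
def InC (c : Set (List XX)) (k : ℕ) : Set KK := {p | ∀ i < k, good c p.1.1 i}

theorem isClopen_InC (c : Set (List XX)) (k : ℕ) : IsClopen (InC c k) :=
  isClopen_of_dep (fun x => ∀ i < k, good c x i) k fun x y hxy hP i hi =>
    (good_congr c x y i (fun j hj => hxy j (by omega))).mpr (hP i hi)

theorem InC_anti (c : Set (List XX)) {k l : ℕ} (h : k ≤ l) : InC c l ⊆ InC c k :=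
  fun _ hp i hi => hp i (lt_of_lt_of_le hi h)

/-- points whose first bad index is l, with the label condition at e -/
def WW (c : Set (List XX)) (l e : ℕ) (j : Fin 4) : Set KK :=
  {p | ((∀ i < l, good c p.1.1 i) ∧ ¬ good c p.1.1 l) ∧ (p.1.1 l).1 = 2 ∧ (p.1.1 e).2 = j}

theorem isClopen_WW (c : Set (List XX)) (l e : ℕ) (j : Fin 4) : IsClopen (WW c l e j) :=
  isClopen_of_dep (fun x => ((∀ i < l, good c x i) ∧ ¬ good c x l) ∧ (x l).1 = 2 ∧ (x e).2 = j)
    (max l e + 1) fun x y hxy hP => by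
      refine ⟨⟨fun i hi => ?_, ?_⟩, ?_, ?_⟩
      · exact (good_congr c x y i (fun j hj => hxy j (by omega))).mpr (hP.1.1 i hi)
      · rw [good_congr c x y l (fun j hj => hxy j (by omega))]; exact hP.1.2
      · rw [hxy l (by omega)]; exact hP.2.1
      · rw [hxy e (by omega)]; exact hP.2.2

theorem WW_subset (c : Set (List XX)) (l e : ℕ) (j : Fin 4) : WW c l e j ⊆ InC c l \ InC c (l + 1) := by
  rintro p ⟨⟨h1, h2⟩, -⟩
  exact ⟨h1, fun h => h2 (h l (Nat.lt_succ_self l))⟩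

theorem mem_diff_iff (c : Set (List XX)) (l : ℕ) (p : KK) :
    p ∈ InC c l \ InC c (l + 1) ↔ (∀ i < l, good c p.1.1 i) ∧ ¬ good c p.1.1 l := by
  constructor
  · rintro ⟨h1, h2⟩
    refine ⟨h1, fun h => h2 fun i hi => ?_⟩
    rcases Nat.lt_succ_iff_lt_or_eq.mp hi with h3 | h3
    · exact h1 i h3
    · rw [h3]; exact h
  · rintro ⟨h1, h2⟩
    exact ⟨h1, fun h => h2 (h l (Nat.lt_succ_self l))⟩

theorem exists_label {φ : C(KK, ℝ) →L[ℝ] ℝ} (hφ : Pos φ) (c : Set (List XX)) (l e : ℕ) :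
    ∃ j : Fin 4, mu φ (WW c l e j) ≤ mu φ (InC c l \ InC c (l + 1)) / 4 := by
  by_contra hcon
  push Not at hcon
  have hcl := fun j => isClopen_WW c l e j
  have hd : ∀ j j' : Fin 4, j ≠ j' → Disjoint (WW c l e j) (WW c l e j') := by
    intro j j' hne
    rw [Set.disjoint_left]
    intro p hp hp'
    exact hne (hp.2.2.symm.trans hp'.2.2)
  have h1 : mu φ (WW c l e 0 ∪ WW c l e 1) = mu φ (WW c l e 0) + mu φ (WW c l e 1) :=
    mu_union φ (hcl 0) (hcl 1) (hd 0 1 (by decide))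
  have h2 : mu φ (WW c l e 2 ∪ WW c l e 3) = mu φ (WW c l e 2) + mu φ (WW c l e 3) :=
    mu_union φ (hcl 2) (hcl 3) (hd 2 3 (by decide))
  have h3 : mu φ ((WW c l e 0 ∪ WW c l e 1) ∪ (WW c l e 2 ∪ WW c l e 3)) =
      mu φ (WW c l e 0 ∪ WW c l e 1) + mu φ (WW c l e 2 ∪ WW c l e 3) := by
    apply mu_union φ ((hcl 0).union (hcl 1)) ((hcl 2).union (hcl 3))
    rw [Set.disjoint_union_left, Set.disjoint_union_right, Set.disjoint_union_right]
    exact ⟨⟨hd 0 2 (by decide), hd 0 3 (by decide)⟩, hd 1 2 (by decide), hd 1 3 (by decide)⟩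
  have h4 : mu φ ((WW c l e 0 ∪ WW c l e 1) ∪ (WW c l e 2 ∪ WW c l e 3)) ≤
      mu φ (InC c l \ InC c (l + 1)) := by
    apply mu_mono hφ (((hcl 0).union (hcl 1)).union ((hcl 2).union (hcl 3)))
      ((isClopen_InC c l).diff (isClopen_InC c (l + 1)))
    exact Set.union_subset (Set.union_subset (WW_subset c l e 0) (WW_subset c l e 1))
      (Set.union_subset (WW_subset c l e 2) (WW_subset c l e 3))
  have := hcon 0
  have := hcon 1
  have := hcon 2
  have := hcon 3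
  linarith

/-- the set z_g = 1 -/
def ZZ (γ : GG) : Set KK := {p | p.1.2 γ = true}

theorem isClopen_ZZ (γ : GG) : IsClopen (ZZ γ) := by
  have : ZZ γ = (fun p : KK => p.1.2 γ) ⁻¹' {true} := by ext p; simp [ZZ]
  rw [this]
  exact (isClopen_discrete {true}).preimage ((continuous_apply γ).comp (continuous_snd.comp continuous_subtype_val))

theorem forced_true (γ : GG) (l : ℕ) (hl : l ∈ γ.2.1) (p : KK)
    (hp : p ∈ InC γ.1 l \ InC γ.1 (l + 1))
    (hw : p ∉ WW γ.1 l (node (iota γ) l) (γ.2.2 (node (iota γ) l))) : p ∈ ZZ γ := by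
  rw [mem_diff_iff] at hp
  have h1 : p.1.1 ∈ FF γ true := ⟨l, hp.1, hp.2, fun h => hw ⟨hp, h⟩, by simp [hl]⟩
  exact p.2 γ true h1

theorem forced_false (γ : GG) (l : ℕ) (hl : l ∉ γ.2.1) (p : KK)
    (hp : p ∈ InC γ.1 l \ InC γ.1 (l + 1))
    (hw : p ∉ WW γ.1 l (node (iota γ) l) (γ.2.2 (node (iota γ) l))) : p ∉ ZZ γ := by
  rw [mem_diff_iff] at hp
  have h1 : p.1.1 ∈ FF γ false := ⟨l, hp.1, hp.2, fun h => hw ⟨hp, h⟩, by simp [hl]⟩
  intro h
  have h2 := p.2 γ false h1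
  rw [ZZ, Set.mem_setOf_eq] at h
  rw [h] at h2
  exact Bool.noConfusion h2

/-- one block where z is forced to be one -/
theorem block_even {φ : C(KK, ℝ) →L[ℝ] ℝ} (hφ : Pos φ) (γ : GG) (a L : ℕ) (haL : a ≤ L)
    (hA : ∀ l, a ≤ l → l < L → l ∈ γ.2.1)
    (hJ : ∀ l, a ≤ l → l < L → mu φ (WW γ.1 l (node (iota γ) l) (γ.2.2 (node (iota γ) l))) ≤
      mu φ (InC γ.1 l \ InC γ.1 (l + 1)) / 4) :
    3 / 4 * (mu φ (InC γ.1 a) - mu φ (InC γ.1 L)) ≤ mu φ (ZZ γ ∩ (InC γ.1 a \ InC γ.1 L)) := by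
  induction L, haL using Nat.le_induction with
  | base =>
    rw [sub_self, mul_zero]
    exact mu_nonneg hφ ((isClopen_ZZ γ).inter ((isClopen_InC _ _).diff (isClopen_InC _ _)))
  | succ L haL ih =>
    have ih' := ih (fun l h1 h2 => hA l h1 (by omega)) (fun l h1 h2 => hJ l h1 (by omega))
    have hJL := hJ L haL (Nat.lt_succ_self L)
    have hAL := hA L haL (Nat.lt_succ_self L)
    set W := WW γ.1 L (node (iota γ) L) (γ.2.2 (node (iota γ) L)) with hW
    have hWc : IsClopen W := isClopen_WW _ _ _ _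
    have hSc : IsClopen (InC γ.1 L \ InC γ.1 (L + 1)) := (isClopen_InC _ _).diff (isClopen_InC _ _)
    have hWS : W ⊆ InC γ.1 L \ InC γ.1 (L + 1) := WW_subset _ _ _ _
    have e1 : mu φ (InC γ.1 L \ InC γ.1 (L + 1)) = mu φ (InC γ.1 L) - mu φ (InC γ.1 (L + 1)) :=
      mu_diff φ (isClopen_InC _ _) (isClopen_InC _ _) (InC_anti _ (Nat.le_succ L))
    have e2 : mu φ ((InC γ.1 L \ InC γ.1 (L + 1)) \ W) =
        mu φ (InC γ.1 L \ InC γ.1 (L + 1)) - mu φ W := mu_diff φ hWc hSc hWS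
    have hdisj : Disjoint (ZZ γ ∩ (InC γ.1 a \ InC γ.1 L)) ((InC γ.1 L \ InC γ.1 (L + 1)) \ W) := by
      rw [Set.disjoint_left]
      rintro p ⟨-, -, h1⟩ ⟨⟨h2, -⟩, -⟩
      exact h1 h2
    have hZc : IsClopen (ZZ γ ∩ (InC γ.1 a \ InC γ.1 L)) :=
      (isClopen_ZZ γ).inter ((isClopen_InC _ _).diff (isClopen_InC _ _))
    have e3 := mu_union φ hZc (hSc.diff hWc) hdisj
    have e4 : mu φ ((ZZ γ ∩ (InC γ.1 a \ InC γ.1 L)) ∪ ((InC γ.1 L \ InC γ.1 (L + 1)) \ W)) ≤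
        mu φ (ZZ γ ∩ (InC γ.1 a \ InC γ.1 (L + 1))) := by
      apply mu_mono hφ (hZc.union (hSc.diff hWc))
        ((isClopen_ZZ γ).inter ((isClopen_InC _ _).diff (isClopen_InC _ _)))
      rintro p (⟨h1, h2, h3⟩ | ⟨⟨h1, h2⟩, h3⟩)
      · exact ⟨h1, h2, fun h => h3 (InC_anti _ (Nat.le_succ L) h)⟩
      · exact ⟨forced_true γ L hAL p ⟨h1, h2⟩ h3, InC_anti _ haL h1, h2⟩
    linarith

/-- one block where z is forced to be zero -/
theorem block_odd {φ : C(KK, ℝ) →L[ℝ] ℝ} (hφ : Pos φ) (γ : GG) (a L : ℕ) (haL : a ≤ L)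
    (hA : ∀ l, a ≤ l → l < L → l ∉ γ.2.1)
    (hJ : ∀ l, a ≤ l → l < L → mu φ (WW γ.1 l (node (iota γ) l) (γ.2.2 (node (iota γ) l))) ≤
      mu φ (InC γ.1 l \ InC γ.1 (l + 1)) / 4) :
    mu φ (ZZ γ ∩ (InC γ.1 a \ InC γ.1 L)) ≤ 1 / 4 * (mu φ (InC γ.1 a) - mu φ (InC γ.1 L)) := by
  induction L, haL using Nat.le_induction with
  | base =>
    have h0 : ZZ γ ∩ (InC γ.1 a \ InC γ.1 a) = ∅ := by simp
    have h1 : mu φ (∅ : Set KK) = 0 := by
      have := mu_union φ (isClopen_empty (X := KK)) isClopen_empty (Set.disjoint_empty ∅)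
      rw [Set.union_empty] at this
      linarith
    rw [h0, h1, sub_self, mul_zero]
  | succ L haL ih =>
    have ih' := ih (fun l h1 h2 => hA l h1 (by omega)) (fun l h1 h2 => hJ l h1 (by omega))
    have hJL := hJ L haL (Nat.lt_succ_self L)
    have hAL := hA L haL (Nat.lt_succ_self L)
    set W := WW γ.1 L (node (iota γ) L) (γ.2.2 (node (iota γ) L)) with hW
    have hWc : IsClopen W := isClopen_WW _ _ _ _
    have hWS : W ⊆ InC γ.1 L \ InC γ.1 (L + 1) := WW_subset _ _ _ _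
    have e1 : mu φ (InC γ.1 L \ InC γ.1 (L + 1)) = mu φ (InC γ.1 L) - mu φ (InC γ.1 (L + 1)) :=
      mu_diff φ (isClopen_InC _ _) (isClopen_InC _ _) (InC_anti _ (Nat.le_succ L))
    have hdisj : Disjoint (ZZ γ ∩ (InC γ.1 a \ InC γ.1 L)) W := by
      rw [Set.disjoint_left]
      rintro p ⟨-, -, h1⟩ h2
      exact h1 (hWS h2).1
    have hZc : IsClopen (ZZ γ ∩ (InC γ.1 a \ InC γ.1 L)) :=
      (isClopen_ZZ γ).inter ((isClopen_InC _ _).diff (isClopen_InC _ _))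
    have e3 := mu_union φ hZc hWc hdisj
    have e4 : mu φ (ZZ γ ∩ (InC γ.1 a \ InC γ.1 (L + 1))) ≤
        mu φ ((ZZ γ ∩ (InC γ.1 a \ InC γ.1 L)) ∪ W) := by
      apply mu_mono hφ ((isClopen_ZZ γ).inter ((isClopen_InC _ _).diff (isClopen_InC _ _)))
        (hZc.union hWc)
      rintro p ⟨h1, h2, h3⟩
      by_cases h4 : p ∈ InC γ.1 L
      · right
        by_contra h5
        exact forced_false γ L hAL p ⟨h4, h3⟩ h5 h1
      · exact Or.inl ⟨h1, h2, h4⟩
    linarith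

end Pool.Agent.Helper882.Dirac
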