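import Pool.Agent.Helper882.Dirac.Closed

set_option autoImplicit false
open Set Filter Topology

namespace Pool.Agent.Helper882.Dirac

/-- the point of the base given by a finite sequence of bits -/
def xs {n : ℕ} (s : Fin n → Bool) : ℕ → XX := fun i =>
  if h : i < n then ((if s ⟨i, h⟩ then 1 else 0), 0) else (0, 0)

theorem xs_ne_two {n : ℕ} (s : Fin n → Bool) (i : ℕ) : (xs s i).1 ≠ 2 := by
  unfold xs
  split_ifs <;> simp

/-- the corresponding point of the compact space -/
noncomputable def pt {n : ℕ} (s : Fin n → Bool) : KK := jm FF disj_FF (xs s) (fun _ => false)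

theorem pt_fst {n : ℕ} (s : Fin n → Bool) : (pt s).1.1 = xs s := rfl

/-- averages of Dirac functionals -/
noncomputable def av (n : ℕ) : C(KK, ℝ) →L[ℝ] ℝ :=
  ((2 : ℝ) ^ n)⁻¹ • ∑ s : Fin n → Bool, ContinuousMap.evalCLM ℝ (pt s)

theorem av_apply (n : ℕ) (f : C(KK, ℝ)) : av n f = ((2 : ℝ) ^ n)⁻¹ * ∑ s : Fin n → Bool, f (pt s) := by
  unfold av
  simp

theorem av_bound (n : ℕ) (f : C(KK, ℝ)) : |av n f| ≤ ‖f‖ := by
  rw [av_apply, abs_mul, abs_of_nonneg (by positivity : (0 : ℝ) ≤ ((2 : ℝ) ^ n)⁻¹)]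
  have h1 : |∑ s : Fin n → Bool, f (pt s)| ≤ ∑ s : Fin n → Bool, ‖f‖ := by
    refine (Finset.abs_sum_le_sum_abs _ _).trans (Finset.sum_le_sum fun s _ => ?_)
    exact f.norm_coe_le_norm _
  have h2 : ∑ s : Fin n → Bool, ‖f‖ = (2 : ℝ) ^ n * ‖f‖ := by simp
  calc ((2 : ℝ) ^ n)⁻¹ * |∑ s : Fin n → Bool, f (pt s)| ≤ ((2 : ℝ) ^ n)⁻¹ * ((2 : ℝ) ^ n * ‖f‖) := by
        rw [← h2]; gcongr
    _ = ‖f‖ := by rw [← mul_assoc, inv_mul_cancel₀ (by positivity), one_mul]

theorem exists_cluster : ∃ φ : C(KK, ℝ) →L[ℝ] ℝ, ∀ f : C(KK, ℝ),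
    Tendsto (fun n => av n f) (hyperfilter ℕ : Filter ℕ) (𝓝 (φ f)) := by
  let v : ℕ → WeakDual ℝ C(KK, ℝ) := fun n => StrongDual.toWeakDual (av n)
  have hK := WeakDual.isCompact_closedBall (𝕜 := ℝ) (E := C(KK, ℝ)) 0 1
  have hv : ∀ n, v n ∈ (WeakDual.toStrongDual ⁻¹' Metric.closedBall (0 : StrongDual ℝ C(KK, ℝ)) 1) := by
    intro n
    have h1 : ‖av n‖ ≤ 1 := by
      refine ContinuousLinearMap.opNorm_le_bound _ zero_le_one fun f => ?_
      rw [one_mul]
      exact av_bound n f
    exact (dist_zero_right (av n)).trans_le h1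
  obtain ⟨x, -, hx⟩ := hK.ultrafilter_le_nhds' ((hyperfilter ℕ).map v)
    (by
      rw [Ultrafilter.mem_map]
      exact Filter.univ_mem' hv)
  have ht : Tendsto v (hyperfilter ℕ : Filter ℕ) (𝓝 x) := hx
  refine ⟨WeakDual.toStrongDual x, fun f => ?_⟩
  exact ((WeakDual.eval_continuous f).tendsto x).comp ht

theorem card_agree (n m : ℕ) (hm : m ≤ n) (y : ℕ → XX) :
    (Finset.univ.filter fun s : Fin n → Bool => ∀ j < m, xs s j = y j).card ≤ 2 ^ (n - m) := by
  classical
  have h1 : (Finset.univ.filter fun s : Fin n → Bool => ∀ j < m, xs s j = y j).card ≤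
      (Finset.univ : Finset (Fin (n - m) → Bool)).card := by
    refine Finset.card_le_card_of_injOn
      (fun s => fun j : Fin (n - m) => s ⟨m + j, by omega⟩) (fun _ _ => Finset.mem_univ _) ?_
    intro s hs t ht hst
    simp only [Finset.coe_filter, Finset.mem_univ, true_and, Set.mem_setOf_eq] at hs ht
    funext i
    rcases lt_or_ge i.1 m with h | h
    · have e1 := (hs i.1 h).trans (ht i.1 h).symm
      have e2 := congrArg Prod.fst e1
      simp only [xs, i.2, dif_pos] at e2
      by_cases h1 : s i <;> by_cases h2 : t i <;> simp_all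
    · have e1 := congrFun hst ⟨i.1 - m, by omega⟩
      have e2 : m + (i.1 - m) = i.1 := by omega
      simpa [e2] using e1
  simpa using h1

theorem exists_not_QQ : ∃ φ : C(KK, ℝ) →L[ℝ] ℝ, Pos φ ∧ φ 1 = 1 ∧ ¬ QQ φ := by
  classical
  obtain ⟨φ, hφ⟩ := exists_cluster
  have hpos : Pos φ := fun f hf => ge_of_tendsto' (hφ f) fun n => by
    rw [av_apply]
    exact mul_nonneg (by positivity) (Finset.sum_nonneg fun s _ => hf (pt s))
  have hone : φ 1 = 1 := by
    have h1 := hφ 1
    have h2 : (fun n => av n (1 : C(KK, ℝ))) = fun _ => (1 : ℝ) := by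
      funext n
      rw [av_apply]
      simp
    rw [h2] at h1
    exact tendsto_nhds_unique h1 tendsto_const_nhds
  refine ⟨φ, hpos, hone, ?_⟩
  rintro ⟨-, -, D, hD, hD'⟩
  obtain ⟨g, hg⟩ := (Set.countable_iff_exists_subset_range).mp hD
  let c : Set (List XX) := {w | ∃ i : ℕ, w = List.ofFn fun j : Fin (i + 2) => g i j}
  have hc : ∀ x ∈ D, ∃ i, ¬ good c x i := by
    intro x hx
    obtain ⟨i, rfl⟩ := hg hx
    exact ⟨i + 1, fun h => h.2 ⟨i, rfl⟩⟩
  obtain ⟨k, hk⟩ := hD' c hc (1 / 2) (by norm_num)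
  have hbound : ∀ n, k + 2 ≤ n → 1 / 2 ≤ mu (av n) (InC c k) := by
    intro n hn
    have hsub : (Finset.univ.filter fun s : Fin n → Bool => pt s ∉ InC c k) ⊆
        (Finset.range k).biUnion fun i =>
          Finset.univ.filter fun s : Fin n → Bool => ∀ j < i + 2, xs s j = g i j := by
      intro s hs
      rw [Finset.mem_filter] at hs
      have h2 : ¬ ∀ i < k, good c (xs s) i := hs.2
      push Not at h2
      obtain ⟨i, hik, hi⟩ := h2
      have h3 : (List.ofFn fun j : Fin (i + 1) => xs s j) ∈ c := by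
        by_contra h
        exact hi ⟨xs_ne_two s i, h⟩
      obtain ⟨i', hi'⟩ := h3
      have h4 : i + 1 = i' + 2 := by
        have := congrArg List.length hi'
        simpa using this
      have h5 : i = i' + 1 := by omega
      subst h5
      have h6 := List.ofFn_injective hi'
      rw [Finset.mem_biUnion]
      refine ⟨i', Finset.mem_range.mpr (by omega), ?_⟩
      rw [Finset.mem_filter]
      exact ⟨Finset.mem_univ _, fun j hj => congrFun h6 ⟨j, hj⟩⟩
    have hcard : ((Finset.univ.filter fun s : Fin n → Bool => pt s ∉ InC c k).card : ℝ) ≤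
        ∑ i ∈ Finset.range k, (2 : ℝ) ^ n * (1 / 2) ^ (i + 2) := by
      have h2 : (Finset.univ.filter fun s : Fin n → Bool => pt s ∉ InC c k).card ≤
          ∑ i ∈ Finset.range k, 2 ^ (n - (i + 2)) :=
        (Finset.card_le_card hsub).trans (Finset.card_biUnion_le.trans
          (Finset.sum_le_sum fun i hi => card_agree n (i + 2)
            (by have := Finset.mem_range.mp hi; omega) (g i)))
      have h3 : ((∑ i ∈ Finset.range k, 2 ^ (n - (i + 2)) : ℕ) : ℝ) =
          ∑ i ∈ Finset.range k, (2 : ℝ) ^ n * (1 / 2) ^ (i + 2) := by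
        push_cast
        refine Finset.sum_congr rfl fun i hi => ?_
        have h4 : i + 2 ≤ n := by have := Finset.mem_range.mp hi; omega
        have h5 : (2 : ℝ) ^ n = 2 ^ (n - (i + 2)) * 2 ^ (i + 2) := by
          rw [← pow_add]; congr 1; omega
        rw [h5, mul_assoc, ← mul_pow]
        norm_num
      rw [← h3]
      exact_mod_cast h2
    have hgeo : ∀ k : ℕ, ∑ i ∈ Finset.range k, ((1 : ℝ) / 2) ^ (i + 2) = 1 / 2 - (1 / 2) ^ (k + 1) := by
      intro k
      induction k with
      | zero => simp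
      | succ k ih => rw [Finset.sum_range_succ, ih]; ring
    have htot : ((Finset.univ.filter fun s : Fin n → Bool => pt s ∈ InC c k).card : ℝ) +
        ((Finset.univ.filter fun s : Fin n → Bool => pt s ∉ InC c k).card : ℝ) = 2 ^ n := by
      have h2 := Finset.card_filter_add_card_filter_not (s := (Finset.univ : Finset (Fin n → Bool)))
        (p := fun s => pt s ∈ InC c k)
      have h3 : (Finset.univ : Finset (Fin n → Bool)).card = 2 ^ n := by simp
      rw [h3] at h2
      exact_mod_cast h2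
    have hmu : mu (av n) (InC c k) = ((2 : ℝ) ^ n)⁻¹ *
        ((Finset.univ.filter fun s : Fin n → Bool => pt s ∈ InC c k).card : ℝ) := by
      rw [mu, av_apply]
      congr 1
      rw [Finset.card_filter]
      push_cast
      refine Finset.sum_congr rfl fun s _ => ?_
      rw [chi_apply (isClopen_InC _ _), Set.indicator_apply]
    rw [← Finset.mul_sum, hgeo] at hcard
    have h2n : (0 : ℝ) < 2 ^ n := by positivity
    have hpk : (0 : ℝ) ≤ (1 / 2) ^ (k + 1) := by positivity
    have h6 : (2 : ℝ) ^ n * (1 / 2) ≤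
        ((Finset.univ.filter fun s : Fin n → Bool => pt s ∈ InC c k).card : ℝ) := by
      nlinarith
    rw [hmu, le_inv_mul_iff₀ h2n]
    exact h6
  have h1 : (1 : ℝ) / 2 ≤ mu φ (InC c k) := by
    refine ge_of_tendsto (hφ (chi (InC c k))) ?_
    have h2 : ∀ᶠ n in atTop, k + 2 ≤ n := eventually_ge_atTop _
    have h3 : ∀ᶠ n in (hyperfilter ℕ : Filter ℕ), k + 2 ≤ n := by
      have := Nat.hyperfilter_le_atTop
      exact this h2
    exact h3.mono hbound
  linarith

end Pool.Agent.Helper882.Dirac
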