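import Mathlib

set_option autoImplicit false
open Topology Set

namespace Pool.Agent.Helper882.Dirac

/-- The sigma-algebra on C(Y) generated by the point evaluations. -/
@[reducible] def evSigma (Y : Type) [TopologicalSpace Y] : MeasurableSpace C(Y, ℝ) :=
  ⨆ y : Y, MeasurableSpace.comap (fun f : C(Y, ℝ) => f y) (borel ℝ)

theorem measurable_ev (Y : Type) [TopologicalSpace Y] (y : Y) :
    @Measurable _ _ (evSigma Y) (borel ℝ) (fun f : C(Y, ℝ) => f y) := by
  refine Measurable.of_comap_le ?_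
  exact le_iSup (fun y : Y => MeasurableSpace.comap (fun f : C(Y, ℝ) => f y) (borel ℝ)) y

open Classical in
/-- The characteristic function of a clopen set (zero if the set is not clopen). -/
noncomputable def chi {Y : Type} [TopologicalSpace Y] (S : Set Y) : C(Y, ℝ) :=
  if h : IsClopen S then
    ⟨S.indicator (fun _ => (1 : ℝ)), continuous_indicator
      (by rw [h.frontier_eq]; intro a ha; exact absurd ha (Set.notMem_empty a)) continuousOn_const⟩
  else 0

theorem chi_apply {Y : Type} [TopologicalSpace Y] {S : Set Y} (h : IsClopen S) (y : Y) :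
    chi S y = S.indicator (fun _ => (1 : ℝ)) y := by
  unfold chi
  rw [dif_pos h]; rfl

/-- The space of pairs (x,z) such that z takes the values forced by x. -/
def KF {X Γ : Type} (F : Γ → Bool → Set (ℕ → X)) : Set ((ℕ → X) × (Γ → Bool)) :=
  {p | ∀ γ b, p.1 ∈ F γ b → p.2 γ = b}

section
variable {X Γ : Type} (F : Γ → Bool → Set (ℕ → X))

open Classical in
/-- Correct the forced coordinates of z. -/
noncomputable def corr (x : ℕ → X) (z : Γ → Bool) : Γ → Bool := fun γ =>
  if x ∈ F γ true then true else if x ∈ F γ false then false else z γ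

theorem corr_forced (hdisj : ∀ γ, Disjoint (F γ true) (F γ false)) (x : ℕ → X) (z : Γ → Bool)
    (γ : Γ) (b : Bool) (h : x ∈ F γ b) : corr F x z γ = b := by
  cases b with
  | true => simp [corr, h]
  | false =>
    have : x ∉ F γ true := fun h' => Set.disjoint_left.mp (hdisj γ) h' h
    simp [corr, h, this]

theorem corr_free (x : ℕ → X) (z : Γ → Bool) (γ : Γ) (h : ∀ b, x ∉ F γ b) :
    corr F x z γ = z γ := by
  simp [corr, h]

theorem corr_mem (hdisj : ∀ γ, Disjoint (F γ true) (F γ false)) (x : ℕ → X) (z : Γ → Bool) :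
    (x, corr F x z) ∈ KF F := by
  intro γ b h
  exact corr_forced F hdisj x z γ b h

variable [TopologicalSpace X] [DiscreteTopology X]

theorem isClosed_KF (hF : ∀ γ b, IsOpen (F γ b)) : IsClosed (KF F) := by
  have : KF F = ⋂ γ, ⋂ b, ({p : (ℕ → X) × (Γ → Bool) | p.1 ∈ F γ b}ᶜ ∪ {p | p.2 γ = b}) := by
    ext p; simp [KF, imp_iff_not_or]
  rw [this]
  refine isClosed_iInter fun γ => isClosed_iInter fun b => IsClosed.union ?_ ?_
  · exact ((hF γ b).preimage continuous_fst).isClosed_compl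
  · exact isClosed_eq ((continuous_apply γ).comp continuous_snd) continuous_const

theorem continuous_corr (x : ℕ → X) : Continuous (corr F x) := by
  refine continuous_pi fun γ => ?_
  unfold corr
  by_cases h1 : x ∈ F γ true
  · simp only [h1, if_true]; exact continuous_const
  · by_cases h2 : x ∈ F γ false
    · simp only [h1, h2, if_true, if_false]; exact continuous_const
    · simp only [h1, h2, if_false]; exact continuous_apply γ

/-- The embedding of the cube in the fibre over x. -/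
noncomputable def jm (hdisj : ∀ γ, Disjoint (F γ true) (F γ false)) (x : ℕ → X) :
    C(Γ → Bool, KF F) :=
  ⟨fun z => ⟨(x, corr F x z), corr_mem F hdisj x z⟩,
    Continuous.subtype_mk (continuous_const.prodMk (continuous_corr F x)) _⟩

/-- second projection -/
def pr2 : C(KF F, Γ → Bool) := ⟨fun p => p.1.2, continuous_snd.comp continuous_subtype_val⟩

/-- the cell of the finite sequence t -/
def cell (k : ℕ) (t : Fin k → X) : Set (KF F) := {p | ∀ i : Fin k, p.1.1 i = t i}

theorem isClopen_cell (k : ℕ) (t : Fin k → X) : IsClopen (cell F k t) := by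
  have : cell F k t = ⋂ i : Fin k, (fun p : KF F => p.1.1 i) ⁻¹' {t i} := by
    ext p; simp [cell]
  rw [this]
  refine isClopen_iInter_of_finite fun i => ?_
  refine (isClopen_discrete {t i}).preimage ?_
  exact (continuous_apply (i : ℕ)).comp (continuous_fst.comp continuous_subtype_val)

end

section
variable {X Γ I : Type} [Fintype X] [TopologicalSpace X] [DiscreteTopology X]
  (F : Γ → Bool → Set (ℕ → X)) (hdisj : ∀ γ, Disjoint (F γ true) (F γ false)) (d : I → ℕ → X)

/-- The approximation operator attached to a choice of points. -/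
noncomputable def TT (k : ℕ) (w : (Fin k → X) → I) (f : C(KF F, ℝ)) : C(KF F, ℝ) :=
  ∑ t : Fin k → X, chi (cell F k t) * ((f.comp (jm F hdisj (d (w t)))).comp (pr2 F))

theorem TT_apply (k : ℕ) (w : (Fin k → X) → I) (f : C(KF F, ℝ)) (p : KF F) :
    TT F hdisj d k w f p = f (jm F hdisj (d (w (fun i => p.1.1 i))) p.1.2) := by
  classical
  unfold TT
  rw [ContinuousMap.sum_apply]
  rw [Finset.sum_eq_single (fun i : Fin k => p.1.1 i)]
  · have h1 : p ∈ cell F k (fun i : Fin k => p.1.1 i) := fun i => rfl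
    rw [ContinuousMap.mul_apply, chi_apply (isClopen_cell F k _), Set.indicator_of_mem h1, one_mul]
    rfl
  · intro t _ ht
    have h1 : p ∉ cell F k t := fun h => ht (by ext i; exact (h i).symm)
    rw [ContinuousMap.mul_apply, chi_apply (isClopen_cell F k _), Set.indicator_of_notMem h1, zero_mul]
  · intro h; exact absurd (Finset.mem_univ _) h

/-- uniform continuity -/
theorem exists_unif (hF : ∀ γ b, IsOpen (F γ b)) (f : C(KF F, ℝ)) (ε : ℝ) (hε : 0 < ε) :
    ∃ (k : ℕ) (G : Finset Γ), ∀ p q : KF F, (∀ j < k, p.1.1 j = q.1.1 j) →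
      (∀ γ ∈ G, p.1.2 γ = q.1.2 γ) → |f p - f q| ≤ ε := by
  classical
  have : CompactSpace (KF F) := isCompact_iff_compactSpace.mp (isClosed_KF F hF).isCompact
  by_contra hcon
  push Not at hcon
  let E : ℕ × Finset Γ → Set (KF F × KF F) := fun a =>
    {pq | (∀ j < a.1, pq.1.1.1 j = pq.2.1.1 j) ∧ (∀ γ ∈ a.2, pq.1.1.2 γ = pq.2.1.2 γ) ∧
      ε ≤ |f pq.1 - f pq.2|}
  have hcl : ∀ a, IsClosed (E a) := by
    intro a
    have c1 : ∀ j : ℕ, Continuous (fun pq : KF F × KF F => pq.1.1.1 j) := fun j =>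
      (continuous_apply j).comp (continuous_fst.comp (continuous_subtype_val.comp continuous_fst))
    have c2 : ∀ j : ℕ, Continuous (fun pq : KF F × KF F => pq.2.1.1 j) := fun j =>
      (continuous_apply j).comp (continuous_fst.comp (continuous_subtype_val.comp continuous_snd))
    have c3 : ∀ γ : Γ, Continuous (fun pq : KF F × KF F => pq.1.1.2 γ) := fun γ =>
      (continuous_apply γ).comp (continuous_snd.comp (continuous_subtype_val.comp continuous_fst))
    have c4 : ∀ γ : Γ, Continuous (fun pq : KF F × KF F => pq.2.1.2 γ) := fun γ =>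
      (continuous_apply γ).comp (continuous_snd.comp (continuous_subtype_val.comp continuous_snd))
    have e1 : E a = (⋂ j, ⋂ (_ : j < a.1), {pq : KF F × KF F | pq.1.1.1 j = pq.2.1.1 j}) ∩
        ((⋂ γ ∈ a.2, {pq : KF F × KF F | pq.1.1.2 γ = pq.2.1.2 γ}) ∩
          {pq : KF F × KF F | ε ≤ |f pq.1 - f pq.2|}) := by
      ext pq
      simp only [E, Set.mem_setOf_eq, Set.mem_inter_iff, Set.mem_iInter]
    rw [e1]
    refine IsClosed.inter (isClosed_iInter fun j => isClosed_iInter fun _ => ?_)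
      (IsClosed.inter (isClosed_iInter fun γ => isClosed_iInter fun _ => ?_) ?_)
    · exact isClosed_eq (c1 j) (c2 j)
    · exact isClosed_eq (c3 γ) (c4 γ)
    · exact isClosed_le continuous_const
        ((f.continuous.comp continuous_fst).sub (f.continuous.comp continuous_snd)).abs
  have hne : (⋂ a, E a).Nonempty := by
    apply IsCompact.nonempty_iInter_of_directed_nonempty_isCompact_isClosed
    · intro a b
      refine ⟨(max a.1 b.1, a.2 ∪ b.2), ?_, ?_⟩
      · rintro pq ⟨h1, h2, h3⟩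
        exact ⟨fun j hj => h1 j (lt_of_lt_of_le hj (le_max_left _ _)),
          fun γ hγ => h2 γ (Finset.mem_union_left _ hγ), h3⟩
      · rintro pq ⟨h1, h2, h3⟩
        exact ⟨fun j hj => h1 j (lt_of_lt_of_le hj (le_max_right _ _)),
          fun γ hγ => h2 γ (Finset.mem_union_right _ hγ), h3⟩
    · rintro ⟨k, G⟩
      obtain ⟨p, q, h1, h2, h3⟩ := hcon k G
      exact ⟨(p, q), h1, h2, h3.le⟩
    · intro a
      exact (hcl a).isCompact
    · exact hcl
  obtain ⟨⟨p, q⟩, hpq⟩ := hne
  rw [Set.mem_iInter] at hpq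
  have h1 : p.1.1 = q.1.1 := by
    funext j
    exact (hpq (j + 1, ∅)).1 j (Nat.lt_succ_self j)
  have h2 : p.1.2 = q.1.2 := by
    funext γ
    exact (hpq (0, {γ})).2.1 γ (Finset.mem_singleton_self γ)
  have h3 : p = q := Subtype.ext (Prod.ext h1 h2)
  have h4 := (hpq (0, ∅)).2.2
  rw [h3] at h4
  simp at h4
  linarith

theorem exists_cyl {U : Set (ℕ → X)} (hU : IsOpen U) (x : ℕ → X) (hx : x ∈ U) :
    ∃ K : ℕ, ∀ y : ℕ → X, (∀ j < K, y j = x j) → y ∈ U := by
  obtain ⟨I, u, h1, h2⟩ := isOpen_pi_iff.mp hU x hx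
  refine ⟨I.sup id + 1, fun y hy => h2 ?_⟩
  intro a ha
  have h3 : a < I.sup id + 1 := Nat.lt_succ_of_le (Finset.le_sup (f := id) ha)
  rw [hy a h3]
  exact (h1 a ha).2

theorem isOpen_cyl (x : ℕ → X) (K : ℕ) : IsOpen {y : ℕ → X | ∀ j < K, y j = x j} := by
  have : {y : ℕ → X | ∀ j < K, y j = x j} = ⋂ j ∈ Finset.range K, (fun y : ℕ → X => y j) ⁻¹' {x j} := by
    ext y; simp
  rw [this]
  exact isOpen_biInter_finset fun j _ => (isOpen_discrete {x j}).preimage (continuous_apply j)

/-- local approximation by points of the sequence d -/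
theorem exists_data [Nonempty X] (hF : ∀ γ b, IsOpen (F γ b))
    (hd : ∀ (x : ℕ → X) (k : ℕ) (G : Finset Γ), ∃ i : I, (∀ j < k, d i j = x j) ∧
      ∀ γ ∈ G, ∀ b, (x ∈ F γ b ↔ d i ∈ F γ b))
    (f : C(KF F, ℝ)) (ε : ℝ) (hε : 0 < ε) :
    ∃ (k : ℕ) (w : (Fin k → X) → I), ∀ p : KF F, |f p - TT F hdisj d k w f p| ≤ ε := by
  classical
  obtain ⟨k, G, hk⟩ := exists_unif F hF f ε hε
  -- for every x there is a level and an index
  have hloc : ∀ x : ℕ → X, ∃ (K : ℕ) (i : I), ∀ p : KF F, (∀ j < K, p.1.1 j = x j) →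
      |f p - f (jm F hdisj (d i) p.1.2)| ≤ ε := by
    intro x
    obtain ⟨i, hi1, hi2⟩ := hd x k G
    have hnb : ∃ K, k ≤ K ∧ ∀ y : ℕ → X, (∀ j < K, y j = x j) → ∀ γ ∈ G, ∀ b, x ∈ F γ b → y ∈ F γ b := by
      have h1 : ∀ (γ : Γ) (b : Bool), ∃ K : ℕ, ∀ y : ℕ → X, (∀ j < K, y j = x j) →
          x ∈ F γ b → y ∈ F γ b := by
        intro γ b
        by_cases hx : x ∈ F γ b
        · obtain ⟨K, hK⟩ := exists_cyl (hF γ b) x hx
          exact ⟨K, fun y hy _ => hK y hy⟩
        · exact ⟨0, fun y _ h => absurd h hx⟩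
      choose K1 hK1 using h1
      refine ⟨max k (G.sup fun γ => max (K1 γ true) (K1 γ false)), le_max_left _ _, ?_⟩
      intro y hy γ hγ b hb
      refine hK1 γ b y (fun j hj => hy j ?_) hb
      refine lt_of_lt_of_le hj (le_trans ?_ (le_max_right _ _))
      refine le_trans ?_ (Finset.le_sup (f := fun γ => max (K1 γ true) (K1 γ false)) hγ)
      cases b
      · exact le_max_right _ _
      · exact le_max_left _ _
    obtain ⟨K, hkK, hK⟩ := hnb
    refine ⟨K, i, fun p hp => ?_⟩
    apply hk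
    · intro j hj
      rw [hp j (lt_of_lt_of_le hj hkK)]
      exact (hi1 j hj).symm
    · intro γ hγ
      change p.1.2 γ = corr F (d i) p.1.2 γ
      by_cases hx : ∃ b, x ∈ F γ b
      · obtain ⟨b, hb⟩ := hx
        have h1 : p.1.1 ∈ F γ b := hK p.1.1 hp γ hγ b hb
        rw [corr_forced F hdisj (d i) p.1.2 γ b ((hi2 γ hγ b).mp hb)]
        exact p.2 γ b h1
      · push Not at hx
        rw [corr_free F (d i) p.1.2 γ (fun b hb => hx b ((hi2 γ hγ b).mpr hb))]
  choose K i hKi using hloc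
  have hunif : ∃ M : ℕ, ∀ x : ℕ → X, ∃ i : I, ∀ p : KF F, (∀ j < M, p.1.1 j = x j) →
      |f p - f (jm F hdisj (d i) p.1.2)| ≤ ε := by
    obtain ⟨t, -, ht⟩ := (isCompact_univ (X := ℕ → X)).elim_nhds_subcover
      (fun x => {y : ℕ → X | ∀ j < K x, y j = x j})
      (fun x _ => (isOpen_cyl x (K x)).mem_nhds (fun j _ => rfl))
    refine ⟨t.sup K, fun x => ?_⟩
    obtain ⟨x0, hx0, hx0'⟩ := Set.mem_iUnion₂.mp (ht (Set.mem_univ x))
    refine ⟨i x0, fun p hp => hKi x0 p fun j hj => ?_⟩
    rw [hp j (lt_of_lt_of_le hj (Finset.le_sup hx0))]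
    exact hx0' j hj
  obtain ⟨M, hM⟩ := hunif
  choose i' hi' using hM
  let ext : (Fin M → X) → (ℕ → X) := fun t n => if h : n < M then t ⟨n, h⟩ else Classical.arbitrary X
  refine ⟨M, fun t => i' (ext t), fun p => ?_⟩
  rw [TT_apply]
  apply hi'
  intro j hj
  simp [ext, hj]

end

end Pool.Agent.Helper882.Dirac
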