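import Pool.Agent.Helper882.Dirac.Functional

set_option autoImplicit false
open Set

namespace Pool.Agent.Helper882.Dirac

/-- the alphabet -/
abbrev XX := Fin 3 × Fin 4

/-- the index set: a closed set code, a set of naturals, a choice of labels -/
abbrev GG := Set (List XX) × Set ℕ × (ℕ → Fin 4)

/-- node numbers of a branch of the binary tree -/
def node (s : ℕ → Bool) : ℕ → ℕ
  | 0 => 1
  | l + 1 => 2 * node s l + (if s l then 1 else 0)

theorem node_bounds (s : ℕ → Bool) (l : ℕ) : 2 ^ l ≤ node s l ∧ node s l < 2 ^ (l + 1) := by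
  induction l with
  | zero => simp [node]
  | succ l ih =>
    have h1 : (if s l then 1 else 0 : ℕ) ≤ 1 := by split_ifs <;> simp
    have h2 : 2 ^ (l + 1) = 2 * 2 ^ l := by ring
    have h3 : 2 ^ (l + 1 + 1) = 2 * 2 ^ (l + 1) := by ring
    simp only [node]
    omega

theorem lt_node (s : ℕ → Bool) (l : ℕ) : l < node s l :=
  lt_of_lt_of_le Nat.lt_two_pow_self (node_bounds s l).1

theorem log_node (s : ℕ → Bool) (l : ℕ) : Nat.log 2 (node s l) = l :=
  Nat.log_eq_of_pow_le_of_lt_pow (node_bounds s l).1 (node_bounds s l).2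

theorem node_inj (s t : ℕ → Bool) (l : ℕ) (h : node s l = node t l) : ∀ j < l, s j = t j := by
  induction l with
  | zero => intro j hj; omega
  | succ l ih =>
    simp only [node] at h
    have h1 : node s l = node t l := by split_ifs at h <;> omega
    intro j hj
    rcases Nat.lt_succ_iff_lt_or_eq.mp hj with h2 | h2
    · exact ih h1 j h2
    · subst h2
      by_cases hs : s j <;> by_cases ht : t j <;> simp_all

theorem exists_inj : ∃ ι : GG → (ℕ → Bool), Function.Injective ι := by
  have h1 : Cardinal.mk GG ≤ Cardinal.mk (ℕ → Bool) := by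
    have h4 : (4 : Cardinal.{0}) ^ Cardinal.aleph0.{0} = Cardinal.continuum.{0} := by
      exact_mod_cast Cardinal.nat_power_aleph0 (n := 4) (by norm_num)
    simp only [GG, Cardinal.mk_prod, Cardinal.mk_set, Cardinal.lift_id]
    simp
    erw [h4]
    simp
  obtain ⟨e⟩ := h1
  exact ⟨e, e.injective⟩

/-- a fixed injection -/
noncomputable def iota : GG → (ℕ → Bool) := exists_inj.choose
theorem iota_inj : Function.Injective iota := exists_inj.choose_spec

/-- x is good at i for the code c -/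
def good (c : Set (List XX)) (x : ℕ → XX) (i : ℕ) : Prop :=
  (x i).1 ≠ 2 ∧ (List.ofFn fun j : Fin (i + 1) => x j) ∉ c

/-- the label condition -/
def hit (γ : GG) (x : ℕ → XX) (l : ℕ) : Prop :=
  (x l).1 = 2 ∧ (x (node (iota γ) l)).2 = γ.2.2 (node (iota γ) l)

/-- The forcing sets. -/
def FF (γ : GG) (b : Bool) : Set (ℕ → XX) :=
  {x | ∃ l, (∀ i < l, good γ.1 x i) ∧ ¬ good γ.1 x l ∧ ¬ hit γ x l ∧ (b = true ↔ l ∈ γ.2.1)}

theorem good_congr (c : Set (List XX)) (x y : ℕ → XX) (i : ℕ) (h : ∀ j ≤ i, y j = x j) :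
    good c y i ↔ good c x i := by
  have h1 : (List.ofFn fun j : Fin (i + 1) => y j) = (List.ofFn fun j : Fin (i + 1) => x j) := by
    congr 1; funext j; exact h j (Nat.lt_succ_iff.mp j.2)
  unfold good
  rw [h1, h i le_rfl]

theorem hit_congr (γ : GG) (x y : ℕ → XX) (l : ℕ) (h : ∀ j ≤ node (iota γ) l, y j = x j) :
    hit γ y l ↔ hit γ x l := by
  unfold hit
  rw [h l (lt_node _ _).le, h _ le_rfl]

theorem isOpen_of_cyl (U : Set (ℕ → XX)) (h : ∀ x ∈ U, ∃ K : ℕ, ∀ y, (∀ j < K, y j = x j) → y ∈ U) :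
    IsOpen U := by
  rw [isOpen_iff_forall_mem_open]
  intro x hx
  obtain ⟨K, hK⟩ := h x hx
  exact ⟨{y | ∀ j < K, y j = x j}, hK, isOpen_cyl x K, fun j _ => rfl⟩

theorem FF_congr (γ : GG) (b : Bool) (x y : ℕ → XX) (l : ℕ)
    (hl : ∀ j ≤ node (iota γ) l, y j = x j)
    (h : (∀ i < l, good γ.1 x i) ∧ ¬ good γ.1 x l ∧ ¬ hit γ x l ∧ (b = true ↔ l ∈ γ.2.1)) :
    (∀ i < l, good γ.1 y i) ∧ ¬ good γ.1 y l ∧ ¬ hit γ y l ∧ (b = true ↔ l ∈ γ.2.1) := by
  have hln := lt_node (iota γ) l
  refine ⟨fun i hi => ?_, ?_, ?_, h.2.2.2⟩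
  · rw [good_congr γ.1 x y i (fun j hj => hl j (by omega))]; exact h.1 i hi
  · rw [good_congr γ.1 x y l (fun j hj => hl j (by omega))]; exact h.2.1
  · rw [hit_congr γ x y l hl]; exact h.2.2.1

theorem isOpen_FF (γ : GG) (b : Bool) : IsOpen (FF γ b) := by
  apply isOpen_of_cyl
  rintro x ⟨l, hx⟩
  exact ⟨node (iota γ) l + 1, fun y hy => ⟨l, FF_congr γ b x y l (fun j hj => hy j (by omega)) hx⟩⟩

theorem first_unique {P : ℕ → Prop} {l l' : ℕ} (h1 : ∀ i < l, P i) (h2 : ¬ P l)
    (h1' : ∀ i < l', P i) (h2' : ¬ P l') : l = l' := by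
  rcases lt_trichotomy l l' with h | h | h
  · exact absurd (h1' l h) h2
  · exact h
  · exact absurd (h1 l' h) h2'

theorem disj_FF (γ : GG) : Disjoint (FF γ true) (FF γ false) := by
  rw [Set.disjoint_left]
  rintro x ⟨l, h1, h2, -, h3⟩ ⟨l', h1', h2', -, h3'⟩
  have : l = l' := first_unique h1 h2 h1' h2'
  subst this
  simp at h3 h3'
  exact h3' h3

/-- the countable dense set -/
def dd (w : List XX) : ℕ → XX := fun i => w.getD i (0, 0)

theorem dd_ofFn (y : ℕ → XX) (M : ℕ) (j : ℕ) (hj : j < M) : dd (List.ofFn fun i : Fin M => y i) j = y j := by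
  unfold dd
  rw [List.getD_eq_getElem _ _ (by simpa using hj)]
  simp

theorem dd_ofFn_of_le (y : ℕ → XX) (M : ℕ) (j : ℕ) (hj : M ≤ j) :
    dd (List.ofFn fun i : Fin M => y i) j = (0, 0) := by
  unfold dd
  rw [List.getD_eq_default _ _ (by simpa using hj)]

theorem dense_FF (x : ℕ → XX) (k : ℕ) (G : Finset GG) : ∃ w : List XX, (∀ j < k, dd w j = x j) ∧
    ∀ γ ∈ G, ∀ b, (x ∈ FF γ b ↔ dd w ∈ FF γ b) := by
  classical
  by_cases hx : ∃ l0, (x l0).1 = 2
  · obtain ⟨l0, hl0⟩ := hx
    let K := max (k + 1) (G.sup fun γ => node (iota γ) l0 + 1)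
    have hmono : ∀ (s : ℕ → Bool) (l l' : ℕ), l ≤ l' → node s l ≤ node s l' := by
      intro s l l' h
      rcases Nat.eq_or_lt_of_le h with h | h
      · rw [h]
      · have h1 := (node_bounds s l).2
        have h2 := (node_bounds s l').1
        have h3 : 2 ^ (l + 1) ≤ 2 ^ l' := Nat.pow_le_pow_right (by norm_num) h
        omega
    let w := List.ofFn fun i : Fin K => x i
    have hw : ∀ j < K, dd w j = x j := fun j hj => dd_ofFn x K j hj
    refine ⟨w, fun j hj => hw j (lt_of_lt_of_le hj (le_trans (Nat.le_succ k) (le_max_left _ _))), ?_⟩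
    intro γ hγ b
    have hK : node (iota γ) l0 < K := by
      have h1 : node (iota γ) l0 + 1 ≤ G.sup fun γ => node (iota γ) l0 + 1 :=
        Finset.le_sup (f := fun γ => node (iota γ) l0 + 1) hγ
      exact lt_of_lt_of_le (Nat.lt_succ_self _) (le_trans h1 (le_max_right _ _))
    have hbx : ¬ good γ.1 x l0 := fun h => h.1 hl0
    have hl0K : l0 < K := (lt_node (iota γ) l0).trans hK
    have hbw : ¬ good γ.1 (dd w) l0 := fun h => h.1 (by rw [hw l0 hl0K]; exact hl0)
    constructor
    · rintro ⟨l, hl⟩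
      have hll0 : l ≤ l0 := by
        by_contra h
        exact hbx (hl.1 l0 (by omega))
      have := hmono (iota γ) l l0 hll0
      exact ⟨l, FF_congr γ b x (dd w) l (fun j hj => hw j (by omega)) hl⟩
    · rintro ⟨l, hl⟩
      have hll0 : l ≤ l0 := by
        by_contra h
        exact hbw (hl.1 l0 (by omega))
      have := hmono (iota γ) l l0 hll0
      exact ⟨l, FF_congr γ b (dd w) x l (fun j hj => (hw j (by omega)).symm) hl⟩
  · push Not at hx
    -- first bad index
    have hbad : ∀ γ : GG, ∃ l : ℕ, (∀ i, good γ.1 x i) ∨ ((∀ i < l, good γ.1 x i) ∧ ¬ good γ.1 x l) := by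
      intro γ
      by_cases h : ∀ i, good γ.1 x i
      · exact ⟨0, Or.inl h⟩
      · push Not at h
        refine ⟨Nat.find h, Or.inr ⟨fun i hi => ?_, Nat.find_spec h⟩⟩
        by_contra hc
        exact Nat.find_min h hi hc
    choose lb hlb using hbad
    obtain ⟨L0, hL0⟩ := exists_level iota iota_inj G
    let L := max (max k L0) (G.sup fun γ => lb γ + 1)
    have hLk : k ≤ L := le_trans (le_max_left _ _) (le_max_left _ _)
    have hLL0 : L0 ≤ L := le_trans (le_max_right _ _) (le_max_left _ _)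
    have hLlb : ∀ γ ∈ G, lb γ < L := fun γ hγ =>
      lt_of_lt_of_le (Nat.lt_succ_self _) (le_trans (Finset.le_sup (f := fun γ => lb γ + 1) hγ)
        (le_max_right _ _))
    have hnode : ∀ γ ∈ G, ∀ γ' ∈ G, node (iota γ) L = node (iota γ') L → γ = γ' := by
      intro γ hγ γ' hγ' h
      have h1 := hL0 L hLL0
      have h2 := node_inj _ _ _ h
      have h3 : (⟨γ, hγ⟩ : G) = ⟨γ', hγ'⟩ := h1 (by funext j; exact h2 j j.2)
      exact congrArg Subtype.val h3
    let y : ℕ → XX := fun j => if j < L then x j else if j = L then (2, 0) else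
      if h : ∃ γ ∈ G, node (iota γ) L = j then (0, h.choose.2.2 j) else (0, 0)
    have hy1 : ∀ j < L, y j = x j := fun j hj => by simp [y, hj]
    have hy2 : y L = (2, 0) := by simp [y]
    have hy3 : ∀ γ ∈ G, (y (node (iota γ) L)).2 = γ.2.2 (node (iota γ) L) := by
      intro γ hγ
      have hlt := lt_node (iota γ) L
      have hex : ∃ γ' ∈ G, node (iota γ') L = node (iota γ) L := ⟨γ, hγ, rfl⟩
      have h1 : y (node (iota γ) L) = (0, hex.choose.2.2 (node (iota γ) L)) := by
        have e1 : ¬ (node (iota γ) L < L) := by omega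
        have e2 : ¬ (node (iota γ) L = L) := by omega
        simp only [y, e1, e2, if_false]
        rw [dif_pos hex]
      have h2 : hex.choose = γ := hnode _ hex.choose_spec.1 γ hγ hex.choose_spec.2
      rw [h1, h2]
    obtain ⟨M, hMdef⟩ : ∃ M, M = 2 ^ (L + 1) + 1 := ⟨_, rfl⟩
    have hyM : ∀ j, M ≤ j → y j = (0, 0) := by
      intro j hj
      rw [hMdef] at hj
      have hLM : L < 2 ^ (L + 1) := lt_trans (Nat.lt_succ_self L) Nat.lt_two_pow_self
      have e1 : ¬ (j < L) := by omega
      have e2 : ¬ (j = L) := by omega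
      have e3 : ¬ ∃ γ ∈ G, node (iota γ) L = j := by
        rintro ⟨γ, -, h⟩
        have := (node_bounds (iota γ) L).2
        omega
      simp only [y, e1, e2, if_false]
      rw [dif_neg e3]
    have hdd : dd (List.ofFn fun i : Fin M => y i) = y := by
      funext j
      rcases lt_or_ge j M with h | h
      · exact dd_ofFn y M j h
      · rw [dd_ofFn_of_le y M j h, hyM j h]
    refine ⟨List.ofFn fun i : Fin M => y i, ?_, ?_⟩
    · intro j hj
      rw [hdd]; exact hy1 j (by omega)
    · intro γ hγ b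
      rw [hdd]
      have hlbL := hLlb γ hγ
      have hgy : ∀ i < L, (good γ.1 y i ↔ good γ.1 x i) := fun i hi =>
        good_congr γ.1 x y i (fun j hj => hy1 j (by omega))
      rcases hlb γ with h | ⟨h1, h2⟩
      · constructor
        · rintro ⟨l, -, hl, -⟩
          exact absurd (h l) hl
        · rintro ⟨l, h3, h4, h5, -⟩
          exfalso
          have h6 : l = L := first_unique h3 h4 (fun i hi => (hgy i hi).mpr (h i))
            (fun hg => hg.1 (by rw [hy2]))
          subst h6
          exact h5 ⟨by rw [hy2], hy3 γ hγ⟩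
      · have h1y : ∀ i < lb γ, good γ.1 y i := fun i hi => (hgy i (by omega)).mpr (h1 i hi)
        have h2y : ¬ good γ.1 y (lb γ) := fun hg => h2 ((hgy _ hlbL).mp hg)
        have hhx : ¬ hit γ x (lb γ) := fun h => hx _ h.1
        have hhy : ¬ hit γ y (lb γ) := fun h => hx (lb γ) (by rw [← hy1 _ hlbL]; exact h.1)
        constructor
        · rintro ⟨l, h3, h4, -, h5⟩
          have : l = lb γ := first_unique h3 h4 h1 h2
          subst this
          exact ⟨lb γ, h1y, h2y, hhy, h5⟩
        · rintro ⟨l, h3, h4, -, h5⟩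
          have : l = lb γ := first_unique h3 h4 h1y h2y
          subst this
          exact ⟨lb γ, h1, h2, hhx, h5⟩

/-- Every functional on C(K) is measurable for the point evaluations. -/
theorem KK_measurable (φ : C(KF FF, ℝ) →L[ℝ] ℝ) :
    @Measurable _ _ (evSigma (KF FF)) (borel ℝ) φ :=
  functional_measurable FF disj_FF dd iota iota_inj isOpen_FF dense_FF φ

end Pool.Agent.Helper882.Dirac
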