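import Mathlib

set_option autoImplicit false

namespace Pool.Agent.Helper882.Dirac

open MeasureTheory

/-- fair coin -/
noncomputable def coin : Measure Bool :=
  (2⁻¹ : ENNReal) • Measure.dirac true + (2⁻¹ : ENNReal) • Measure.dirac false

instance : IsProbabilityMeasure coin := ⟨by simp [coin, ENNReal.inv_two_add_inv_two]⟩

theorem coin_singleton (b : Bool) : coin {b} = 2⁻¹ := by
  cases b <;> simp [coin]

/-- value of the first `k` coins, read in base two -/
def cval : ℕ → (ℕ → Bool) → ℕ
  | 0, _ => 0
  | k + 1, w => 2 * cval k w + (if w k then 1 else 0)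

theorem measurable_cval (k : ℕ) : Measurable (cval k) := by
  induction k with
  | zero => exact measurable_const
  | succ k ih =>
    have h1 : Measurable (fun b : Bool => if b then 1 else 0 : Bool → ℕ) :=
      measurable_of_countable _
    have h2 : Measurable (fun w : ℕ → Bool => (if w k then 1 else 0 : ℕ)) :=
      h1.comp (measurable_pi_apply k)
    have h3 : Measurable (fun w : ℕ → Bool => 2 * cval k w) := by
      have h4 : Measurable (fun n : ℕ => 2 * n) := measurable_of_countable _
      exact h4.comp ih
    exact h3.add h2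

theorem cval_cylinder (k : ℕ) : ∀ j < 2 ^ k, ∃ c : ℕ → Bool,
    {w | cval k w = j} = Set.pi (↑(Finset.range k)) (fun b => {c b}) := by
  induction k with
  | zero =>
    intro j hj
    refine ⟨fun _ => true, ?_⟩
    ext w
    simp only [Finset.range_zero, Finset.coe_empty, Set.empty_pi, Set.mem_univ, iff_true]
    show cval 0 w = j
    have : j = 0 := by simpa using hj
    rw [this]; rfl
  | succ k ih =>
    intro j hj
    have hj2 : j / 2 < 2 ^ k := by
      rw [pow_succ] at hj; omega
    obtain ⟨c, hc⟩ := ih (j / 2) hj2
    refine ⟨fun b => if b = k then decide (j % 2 = 1) else c b, ?_⟩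
    ext w
    have h1 : w ∈ {w | cval k w = j / 2} ↔
        w ∈ Set.pi (↑(Finset.range k)) (fun b => ({c b} : Set Bool)) := by rw [hc]
    have h2 : cval k w = j / 2 ↔ ∀ b < k, w b = c b := by
      constructor
      · intro h b hb
        have := (h1.1 h) b (Finset.mem_coe.2 (Finset.mem_range.2 hb))
        exact this
      · intro h
        exact h1.2 (fun b hb => h b (Finset.mem_range.1 (Finset.mem_coe.1 hb)))
    show cval (k + 1) w = j ↔ _
    constructor
    · intro h b hb
      have hb' : b < k + 1 := Finset.mem_range.1 (Finset.mem_coe.1 hb)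
      have h3 : 2 * cval k w + (if w k then 1 else 0) = j := h
      show w b = _
      by_cases hbk : b = k
      · simp only [hbk, if_true]
        cases hw : w k
        · rw [hw] at h3
          simp only [Bool.false_eq_true, if_false] at h3
          symm
          simp only [decide_eq_false_iff_not]
          omega
        · rw [hw] at h3
          simp only [if_true] at h3
          symm
          simp only [decide_eq_true_eq]
          omega
      · simp only [hbk, if_false]
        refine h2.1 ?_ b (by omega)
        cases hw : w k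
        · rw [hw] at h3
          simp only [Bool.false_eq_true, if_false] at h3
          omega
        · rw [hw] at h3
          simp only [if_true] at h3
          omega
    · intro h
      have h4 : cval k w = j / 2 := by
        apply h2.2
        intro b hb
        have h5 := h b (Finset.mem_coe.2 (Finset.mem_range.2 (by omega)))
        have h6 : w b = if b = k then decide (j % 2 = 1) else c b := h5
        rw [if_neg (by omega)] at h6
        exact h6
      have h5 : w k = decide (j % 2 = 1) := by
        have h5 := h k (Finset.mem_coe.2 (Finset.mem_range.2 (by omega)))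
        have h6 : w k = if k = k then decide (j % 2 = 1) else c k := h5
        rw [if_pos rfl] at h6
        exact h6
      show 2 * cval k w + (if w k then 1 else 0) = j
      rw [h4, h5]
      by_cases hj' : j % 2 = 1
      · simp only [hj', decide_true, if_true]
        omega
      · simp only [hj', decide_false, Bool.false_eq_true, if_false]
        omega

theorem meas_cval (k j : ℕ) (hj : j < 2 ^ k) :
    (Measure.infinitePi (fun _ : ℕ => coin)) {w | cval k w = j} = (2⁻¹ : ENNReal) ^ k := by
  obtain ⟨c, hc⟩ := cval_cylinder k j hj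
  rw [hc, Measure.infinitePi_pi]
  · rw [Finset.prod_congr rfl fun b _ => coin_singleton (c b), Finset.prod_const,
      Finset.card_range]
  · intro b _
    exact MeasurableSet.singleton _

theorem meas_cval_lt (k N : ℕ) (hN : N ≤ 2 ^ k) :
    (Measure.infinitePi (fun _ : ℕ => coin)) {w | cval k w < N} =
      (N : ENNReal) * (2⁻¹ : ENNReal) ^ k := by
  have h : {w | cval k w < N} = ⋃ j ∈ Finset.range N, {w | cval k w = j} := by
    ext w
    simp
  rw [h, measure_biUnion_finset]
  · rw [Finset.sum_congr rfl fun j hj => meas_cval k j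
      ((Finset.mem_range.1 hj).trans_le hN), Finset.sum_const, Finset.card_range,
      nsmul_eq_mul]
  · intro i _ j _ hij
    rw [Function.onFun, Set.disjoint_left]
    intro w h1 h2
    exact hij (Eq.trans (Eq.symm h1) h2)
  · intro j _
    exact measurable_cval k (measurableSet_singleton j)

/-- A measurable threshold function on sequences of coins. -/
theorem exists_threshold : ∃ T : Set (ℝ × (ℕ → Bool)), MeasurableSet T ∧
    ∀ p : ℝ, 0 ≤ p → p ≤ 1 →
      (Measure.infinitePi (fun _ : ℕ => coin)) {ω | (p, ω) ∈ T} = ENNReal.ofReal p := by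
  refine ⟨⋃ k : ℕ, {q : ℝ × (ℕ → Bool) | (cval k q.2 : ℝ) + 1 ≤ 2 ^ k * q.1}, ?_, ?_⟩
  · refine MeasurableSet.iUnion fun k => measurableSet_le ?_ ?_
    · have h1 : Measurable (fun n : ℕ => (n : ℝ)) := measurable_of_countable _
      exact (h1.comp ((measurable_cval k).comp measurable_snd)).add_const 1
    · exact measurable_fst.const_mul _
  · intro p hp0 hp1
    have hset : {ω : ℕ → Bool | (p, ω) ∈
        ⋃ k : ℕ, {q : ℝ × (ℕ → Bool) | (cval k q.2 : ℝ) + 1 ≤ 2 ^ k * q.1}} =
        ⋃ k : ℕ, {ω | cval k ω < ⌊p * (2:ℝ) ^ k⌋₊} := by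
      ext ω
      simp only [Set.mem_iUnion, Set.mem_ofPred_eq]
      apply exists_congr
      intro k
      rw [Nat.lt_iff_add_one_le, Nat.le_floor_iff (by positivity)]
      push_cast
      rw [mul_comm p]
    rw [hset]
    have hmono : Monotone (fun k : ℕ => {ω : ℕ → Bool | cval k ω < ⌊p * (2:ℝ) ^ k⌋₊}) := by
      apply monotone_nat_of_le_succ
      intro k ω hω
      have h1 : cval k ω < ⌊p * (2:ℝ) ^ k⌋₊ := hω
      show cval (k + 1) ω < ⌊p * (2:ℝ) ^ (k + 1)⌋₊
      rw [Nat.lt_iff_add_one_le, Nat.le_floor_iff (by positivity)] at h1 ⊢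
      push_cast at h1 ⊢
      have h2 : (cval (k + 1) ω : ℝ) ≤ 2 * cval k ω + 1 := by
        have : cval (k + 1) ω ≤ 2 * cval k ω + 1 := by
          show 2 * cval k ω + (if ω k then 1 else 0) ≤ _
          split_ifs <;> omega
        exact_mod_cast this
      rw [pow_succ]
      linarith
    have h1 := tendsto_measure_iUnion_atTop
      (μ := Measure.infinitePi (fun _ : ℕ => coin)) hmono
    have h2 : ∀ k : ℕ, (Measure.infinitePi (fun _ : ℕ => coin))
        {ω : ℕ → Bool | cval k ω < ⌊p * (2:ℝ) ^ k⌋₊} =
        ENNReal.ofReal ((⌊p * (2:ℝ) ^ k⌋₊ : ℝ) / 2 ^ k) := by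
      intro k
      rw [meas_cval_lt k _ ?_]
      · rw [div_eq_mul_inv, ENNReal.ofReal_mul (by positivity), ENNReal.ofReal_natCast,
          ← inv_pow, ENNReal.ofReal_pow (by norm_num), ENNReal.ofReal_inv_of_pos (by norm_num),
          ENNReal.ofReal_ofNat]
      · have : (⌊p * (2:ℝ) ^ k⌋₊ : ℝ) ≤ (2:ℝ) ^ k := by
          refine (Nat.floor_le (by positivity)).trans ?_
          have : p * (2:ℝ) ^ k ≤ 1 * (2:ℝ) ^ k :=
            mul_le_mul_of_nonneg_right hp1 (by positivity)
          linarith
        exact_mod_cast this
    have h3 : Filter.Tendsto (fun k : ℕ => ENNReal.ofReal ((⌊p * (2:ℝ) ^ k⌋₊ : ℝ) / 2 ^ k))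
        Filter.atTop (nhds (ENNReal.ofReal p)) := by
      apply ENNReal.tendsto_ofReal
      have h4 := (tendsto_nat_floor_mul_div_atTop (R := ℝ) hp0).comp
        (tendsto_pow_atTop_atTop_of_one_lt (r := (2:ℝ)) (by norm_num))
      exact h4
    refine tendsto_nhds_unique h1 ?_
    refine h3.congr ?_
    intro k
    exact (h2 k).symm

end Pool.Agent.Helper882.Dirac
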